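import Mathlib

set_option autoImplicit false

namespace Pool.Agent.H94.PAv

open Equiv Finset

/-- `f` has no occurrence of the pattern 132. -/
def Av (f : ℕ → ℕ) : Prop := ∀ i j k : ℕ, i < j → j < k → ¬ (f i < f k ∧ f k < f j)

/-- `σ` fixes every `x ≥ n`. -/
def Sup (n : ℕ) (σ : Perm ℕ) : Prop := ∀ x, n ≤ x → σ x = x

theorem Sup.lt_iff {n : ℕ} {σ : Perm ℕ} (h : Sup n σ) (x : ℕ) : σ x < n ↔ x < n := by
  constructor
  · intro hx
    by_contra hc
    have := h x (not_lt.mp hc)
    omega
  · intro hx
    by_contra hc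
    have h1 := h (σ x) (not_lt.mp hc)
    have h2 := σ.injective h1
    omega

theorem Sup.lt {n : ℕ} {σ : Perm ℕ} (h : Sup n σ) {x : ℕ} (hx : x < n) : σ x < n :=
  (h.lt_iff x).mpr hx

theorem Sup.inv {n : ℕ} {σ : Perm ℕ} (h : Sup n σ) : Sup n σ⁻¹ := by
  intro x hx
  rw [Perm.inv_eq_iff_eq]
  exact (h x hx).symm

theorem Sup.mul {n : ℕ} {σ τ : Perm ℕ} (h : Sup n σ) (h' : Sup n τ) : Sup n (σ * τ) := by
  intro x hx
  rw [Perm.mul_apply, h' x hx, h x hx]

theorem Sup.one (n : ℕ) : Sup n 1 := fun _ _ => rfl

theorem Sup.pow {n : ℕ} {σ : Perm ℕ} (h : Sup n σ) (k : ℕ) : Sup n (σ ^ k) := by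
  induction k with
  | zero => simpa using Sup.one n
  | succ k ih => rw [pow_succ]; exact ih.mul h

theorem Sup.mono {n m : ℕ} {σ : Perm ℕ} (h : Sup n σ) (hnm : n ≤ m) : Sup m σ :=
  fun x hx => h x (hnm.trans hx)

theorem Sup.le {n : ℕ} {σ : Perm ℕ} (h : Sup (n+1) σ) (h' : σ n = n) : Sup n σ := by
  intro x hx
  rcases Nat.eq_or_lt_of_le hx with rfl | hlt
  · exact h'
  · exact h x hlt

theorem Av.inv {σ : Perm ℕ} (h : Av σ) : Av (σ⁻¹ : Perm ℕ) := by
  intro i j k hij hjk ⟨h1, h2⟩
  apply h (σ⁻¹ i) (σ⁻¹ k) (σ⁻¹ j) h1 h2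
  simpa using And.intro hij hjk

/-- A permutation of `ℕ` avoiding 132 and fixing `0` is the identity. -/
theorem Av.eq_one {σ : Perm ℕ} (h : Av σ) (h0 : σ 0 = 0) : σ = 1 := by
  have hpos : ∀ x, 0 < x → 0 < σ x := by
    intro x hx
    rcases Nat.eq_zero_or_pos (σ x) with h1 | h1
    · have := σ.injective (h1.trans h0.symm)
      omega
    · exact h1
  have hm : StrictMono σ := by
    intro x y hxy
    rcases Nat.eq_zero_or_pos x with rfl | hx
    · rw [h0]; exact hpos y hxy
    · have := h 0 x y hx hxy
      rw [h0] at this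
      have h2 := hpos y (by omega)
      have h3 : σ x ≠ σ y := fun hc => by have := σ.injective hc; omega
      push Not at this
      have := this h2
      omega
  have hm' : StrictMono (σ⁻¹ : Perm ℕ) := by
    intro x y hxy
    by_contra hc
    have : σ (σ⁻¹ y) ≤ σ (σ⁻¹ x) := hm.monotone (not_lt.mp hc)
    simp at this
    omega
  ext x
  have h1 := hm.le_apply (x := x)
  have h2 := hm'.le_apply (x := σ x)
  simp at h2
  simp
  omega

/-- strictly increasing beyond `a`, preserving `[a,∞)`, eventually the identity: identity beyond `a`. -/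
theorem incr_id {f : ℕ → ℕ} {a n : ℕ} (hge : ∀ x, a ≤ x → a ≤ f x)
    (hinc : ∀ x y, a ≤ x → x < y → y < n → f x < f y) (hfix : ∀ x, n ≤ x → f x = x)
    (hlt : ∀ x, x < n → f x < n) :
    ∀ x, a ≤ x → f x = x := by
  have hup : ∀ x, a ≤ x → x < n → x ≤ f x := by
    intro x hx
    induction x, hx using Nat.le_induction with
    | base => intro _; exact hge a le_rfl
    | succ x hx ih =>
      intro hxn
      have := ih (by omega)
      have := hinc x (x+1) hx (by omega) hxn
      omega
  have hdown : ∀ d x, x + d + 1 = n → a ≤ x → f x ≤ x := by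
    intro d
    induction d with
    | zero => intro x hx hax; have := hlt x (by omega); omega
    | succ d ih =>
      intro x hx hax
      have h1 := ih (x+1) (by omega) (by omega)
      have h2 := hinc x (x+1) hax (by omega) (by omega)
      omega
  intro x hx
  rcases lt_or_ge x n with hxn | hxn
  · have h1 := hup x hx hxn
    have h2 := hdown (n - 1 - x) x (by omega) hx
    omega
  · exact hfix x hxn

/-- Threshold lemma: if the positions satisfying `q` carry larger values than the other
positions below `n`, then they carry exactly the values `≥ c`, `c` the number of others. -/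
theorem threshold {n : ℕ} {σ : Perm ℕ} (h : Sup n σ) (q : ℕ → Prop) [DecidablePred q]
    (hq : ∀ x y, x < n → y < n → q x → ¬ q y → σ y < σ x) (c : ℕ)
    (hc : c = ((range n).filter (fun x => ¬ q x)).card) (x : ℕ) (hx : x < n) :
    q x ↔ c ≤ σ x := by
  constructor
  · intro hqx
    have : ((range n).filter (fun x => ¬ q x)).card ≤ (range (σ x)).card := by
      apply Finset.card_le_card_of_injOn σ
      · intro y hy
        simp only [coe_filter, Set.mem_ofPred_eq, mem_range] at hy
        simp only [coe_range, Set.mem_Iio]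
        exact hq x y hx hy.1 hqx hy.2
      · exact σ.injective.injOn
    rw [card_range] at this
    omega
  · intro hcx
    by_contra hqx
    have h1 : ((range n).filter q).card ≤ (Ioo (σ x) n).card := by
      apply Finset.card_le_card_of_injOn σ
      · intro y hy
        simp only [coe_filter, Set.mem_ofPred_eq, mem_range] at hy
        simp only [coe_Ioo, Set.mem_Ioo]
        exact ⟨hq y x hy.1 hx hy.2 hqx, h.lt hy.1⟩
      · exact σ.injective.injOn
    rw [Nat.card_Ioo] at h1
    have h2 : ((range n).filter q).card + ((range n).filter (fun x => ¬ q x)).card = n := by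
      rw [Finset.card_filter_add_card_filter_not, card_range]
    have h3 := h.lt hx
    omega

/-- The set of permutations of `ℕ` supported on `[0,n)` is finite. -/
theorem finite_sup (n : ℕ) : {σ : Perm ℕ | Sup n σ}.Finite := by
  have hinj : Function.Injective
      (fun (s : {σ : Perm ℕ // Sup n σ}) => (fun i : Fin n => (⟨s.1 i, s.2.lt i.2⟩ : Fin n))) := by
    intro s t hst
    apply Subtype.ext
    ext x
    rcases lt_or_ge x n with hx | hx
    · have := congrFun hst ⟨x, hx⟩
      simpa using this
    · rw [s.2 x hx, t.2 x hx]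
  have hf : Finite {σ : Perm ℕ // Sup n σ} := Finite.of_injective _ hinj
  exact Set.finite_coe_iff.mp hf

noncomputable def PP (n : ℕ) : Finset (Perm ℕ) := (finite_sup n).toFinset

@[simp] theorem mem_PP {n : ℕ} {σ : Perm ℕ} : σ ∈ PP n ↔ Sup n σ := by
  simp [PP]

/-- Build a permutation supported on `[0,n)` from a self-map of `[0,n)`. -/
noncomputable def mk (n : ℕ) (f : ℕ → ℕ) : Perm ℕ := by
  classical
  exact if h : (∀ x < n, f x < n) ∧ (∀ x < n, ∀ y < n, f x = f y → x = y) then
    Equiv.ofBijective (fun x => if x < n then f x else x) (by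
      have hinj : Function.Injective (fun x => if x < n then f x else x) := by
        intro x y hxy
        simp only at hxy
        split_ifs at hxy with h1 h2 h2
        · exact h.2 x h1 y h2 hxy
        · have := h.1 x h1; omega
        · have := h.1 y h2; omega
        · exact hxy
      refine ⟨hinj, ?_⟩
      intro y
      rcases lt_or_ge y n with hy | hy
      · let g : Fin n → Fin n := fun i => ⟨f i, h.1 i i.2⟩
        have hg : Function.Injective g := by
          intro i j hij
          apply Fin.ext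
          exact h.2 i i.2 j j.2 (by simpa [g] using congrArg Fin.val hij)
        obtain ⟨i, hi⟩ := (Finite.injective_iff_surjective.mp hg) ⟨y, hy⟩
        refine ⟨i, ?_⟩
        simp only [i.2, if_true]
        simpa [g] using congrArg Fin.val hi
      · exact ⟨y, by simp [not_lt.mpr hy]⟩)
  else 1

theorem mk_apply {n : ℕ} {f : ℕ → ℕ} (h1 : ∀ x < n, f x < n)
    (h2 : ∀ x < n, ∀ y < n, f x = f y → x = y) (x : ℕ) :
    mk n f x = if x < n then f x else x := by
  classical
  unfold mk
  rw [dif_pos ⟨h1, h2⟩]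
  rfl

theorem mk_lt {n : ℕ} {f : ℕ → ℕ} (h1 : ∀ x < n, f x < n)
    (h2 : ∀ x < n, ∀ y < n, f x = f y → x = y) {x : ℕ} (hx : x < n) :
    mk n f x = f x := by
  rw [mk_apply h1 h2, if_pos hx]

theorem mk_sup (n : ℕ) (f : ℕ → ℕ) : Sup n (mk n f) := by
  classical
  intro x hx
  unfold mk
  split_ifs with h
  · change (if x < n then f x else x) = x
    rw [if_neg (not_lt.mpr hx)]
  · rfl

/-- `Av` for a permutation supported on `[0,n)` only needs to be checked below `n`. -/
theorem av_of_lt {n : ℕ} {σ : Perm ℕ} (hs : Sup n σ)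
    (h : ∀ i j k : ℕ, i < j → j < k → k < n → ¬ (σ i < σ k ∧ σ k < σ j)) : Av σ := by
  intro i j k hij hjk ⟨h1, h2⟩
  rcases lt_or_ge k n with hk | hk
  · exact h i j k hij hjk hk ⟨h1, h2⟩
  · rw [hs k hk] at h2
    rcases lt_or_ge j n with hj | hj
    · have := hs.lt hj; omega
    · rw [hs j hj] at h2; omega

theorem perm_ext_lt {n : ℕ} {σ τ : Perm ℕ} (hs : Sup n σ) (ht : Sup n τ)
    (h : ∀ x < n, σ x = τ x) : σ = τ := by
  ext x
  rcases lt_or_ge x n with hx | hx
  · exact h x hx
  · rw [hs x hx, ht x hx]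

theorem sq_eq_one_iff {σ : Perm ℕ} : σ * σ = 1 ↔ ∀ x, σ (σ x) = x := by
  constructor
  · intro h x
    have := congrArg (fun τ : Perm ℕ => τ x) h
    simpa using this
  · intro h; ext x; simpa using h x

theorem cube_eq_one_iff {σ : Perm ℕ} : σ * σ * σ = 1 ↔ ∀ x, σ (σ (σ x)) = x := by
  constructor
  · intro h x
    have := congrArg (fun τ : Perm ℕ => τ x) h
    simpa using this
  · intro h; ext x; simpa using h x

end Pool.Agent.H94.PAv
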