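import Mathlib

set_option autoImplicit false

namespace Pool.Agent.H94.PAv

/-- The permutation `π` of `[n]` contains the pattern `τ` (a permutation of `[k]`): some
subsequence of length `k` of the one-line notation of `π` is order-isomorphic to `τ`. -/
def Contains {k n : ℕ} (τ : Equiv.Perm (Fin k)) (π : Equiv.Perm (Fin n)) : Prop :=
  ∃ f : Fin k → Fin n, StrictMono f ∧ ∀ i j : Fin k, π (f i) < π (f j) ↔ τ i < τ j

/-- `Omega n T τ` is the set of permutations of `[n]` all of whose `t`-fold composites, `t ∈ T`,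
avoid the pattern `τ`. -/
def Omega {k : ℕ} (n : ℕ) (T : Set ℕ) (τ : Equiv.Perm (Fin k)) : Set (Equiv.Perm (Fin n)) :=
  {π | ∀ t ∈ T, ¬ Contains τ (π ^ t)}

/-- The pattern `132`, that is, the permutation of `{0, 1, 2}` exchanging `1` and `2`
(one-line notation `0 2 1`). -/
def p132 : Equiv.Perm (Fin 3) := Equiv.swap 1 2

/-- Permutations strongly avoiding `τ`: both `π` and `π ^ 2` avoid `τ`. -/
def SAv {k : ℕ} (n : ℕ) (τ : Equiv.Perm (Fin k)) : Set (Equiv.Perm (Fin n)) := Omega n {1, 2} τ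

/-- Permutations powerfully avoiding `τ`: every power `π ^ t`, `t ≥ 1`, avoids `τ`. -/
def PAv {k : ℕ} (n : ℕ) (τ : Equiv.Perm (Fin k)) : Set (Equiv.Perm (Fin n)) :=
  Omega n {t | 1 ≤ t} τ

end Pool.Agent.H94.PAv
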