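import Pool.Agent.H94.PAv.NumF
import Pool.Agent.H94.PAv.Defs

set_option autoImplicit false

namespace Pool.Agent.H94.PAv

open Equiv Finset Filter Topology

/-- extension of a permutation of `Fin n` to `ℕ` -/
def E {n : ℕ} (π : Perm (Fin n)) : Perm ℕ := Perm.extendDomain π Fin.equivSubtype

theorem E_val {n : ℕ} (π : Perm (Fin n)) (i : Fin n) : E π (i : ℕ) = (π i : ℕ) := by
  unfold E
  exact Perm.extendDomain_apply_image π Fin.equivSubtype i

theorem E_lt {n : ℕ} (π : Perm (Fin n)) {x : ℕ} (hx : x < n) : E π x = (π ⟨x, hx⟩ : ℕ) :=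
  E_val π ⟨x, hx⟩

theorem E_sup {n : ℕ} (π : Perm (Fin n)) : Sup n (E π) := by
  intro x hx
  unfold E
  exact Perm.extendDomain_apply_not_subtype π Fin.equivSubtype (by omega)

theorem E_pow {n : ℕ} (π : Perm (Fin n)) (t : ℕ) : E (π ^ t) = (E π) ^ t :=
  map_pow (Perm.extendDomainHom (Fin.equivSubtype (n := n))) π t

theorem E_inj {n : ℕ} : Function.Injective (E (n := n)) :=
  Perm.extendDomainHom_injective (Fin.equivSubtype (n := n))

theorem E_surj {n : ℕ} {σ : Perm ℕ} (hs : Sup n σ) : ∃ π : Perm (Fin n), E π = σ := by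
  let f : Fin n ≃ {i : ℕ // i < n} := Fin.equivSubtype
  refine ⟨f.permCongr.symm (σ.subtypePerm (fun x => hs.lt_iff x)), ?_⟩
  apply perm_ext_lt (E_sup _) hs
  intro x hx
  rw [E_lt _ hx]
  rfl

theorem av_iff {n : ℕ} (π : Perm (Fin n)) : Av (E π) ↔ ¬ Contains p132 π := by
  constructor
  · rintro hA ⟨f, hf, hfp⟩
    have h1 := (hfp 0 2).mpr (by decide)
    have h2 := (hfp 2 1).mpr (by decide)
    have h3 := hf (show (0 : Fin 3) < 1 by decide)
    have h4 := hf (show (1 : Fin 3) < 2 by decide)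
    refine hA (f 0) (f 1) (f 2) h3 h4 ?_
    rw [E_val, E_val, E_val]
    exact ⟨h1, h2⟩
  · intro hC
    apply av_of_lt (E_sup π)
    intro i j k hij hjk hk ⟨h1, h2⟩
    apply hC
    rw [E_lt π (by omega), E_lt π hk] at h1
    rw [E_lt π hk, E_lt π (by omega)] at h2
    have hi : i < n := by omega
    have hj : j < n := by omega
    refine ⟨![⟨i, hi⟩, ⟨j, hj⟩, ⟨k, hk⟩], ?_, ?_⟩
    · have e1 : (⟨i, hi⟩ : Fin n) < ⟨j, hj⟩ := hij
      have e2 : (⟨j, hj⟩ : Fin n) < ⟨k, hk⟩ := hjk
      have e3 := e1.trans e2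
      intro a b hab
      fin_cases a <;> fin_cases b
      · exact absurd hab (by decide)
      · exact e1
      · exact e3
      · exact absurd hab (by decide)
      · exact absurd hab (by decide)
      · exact e2
      · exact absurd hab (by decide)
      · exact absurd hab (by decide)
      · exact absurd hab (by decide)
    · have e1 : π ⟨i, hi⟩ < π ⟨k, hk⟩ := h1
      have e2 : π ⟨k, hk⟩ < π ⟨j, hj⟩ := h2
      have e3 := e1.trans e2
      intro a b
      fin_cases a <;> fin_cases b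
      · exact ⟨fun h => absurd h (lt_irrefl _), fun h => absurd h (by decide)⟩
      · exact ⟨fun _ => by decide, fun _ => e3⟩
      · exact ⟨fun _ => by decide, fun _ => e1⟩
      · exact ⟨fun h => absurd h (lt_asymm e3), fun h => absurd h (by decide)⟩
      · exact ⟨fun h => absurd h (lt_irrefl _), fun h => absurd h (by decide)⟩
      · exact ⟨fun h => absurd h (lt_asymm e2), fun h => absurd h (by decide)⟩
      · exact ⟨fun h => absurd h (lt_asymm e1), fun h => absurd h (by decide)⟩
      · exact ⟨fun _ => by decide, fun _ => e2⟩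
      · exact ⟨fun h => absurd h (lt_irrefl _), fun h => absurd h (by decide)⟩

theorem mem_Omega_iff {n : ℕ} (T : Set ℕ) (π : Perm (Fin n)) :
    π ∈ Omega n T p132 ↔ ∀ t ∈ T, Av ((E π) ^ t : Perm ℕ) := by
  unfold Omega
  rw [Set.mem_ofPred_eq]
  apply forall₂_congr
  intro t _
  rw [← E_pow, av_iff]

theorem ncard_eq {n : ℕ} (X : Set (Perm (Fin n))) (Y : Finset (Perm ℕ))
    (h1 : ∀ π, π ∈ X ↔ E π ∈ Y) (h2 : ∀ σ ∈ Y, Sup n σ) : X.ncard = Y.card := by
  have : (Y : Set (Perm ℕ)) = E '' X := by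
    ext σ
    rw [mem_coe, Set.mem_image]
    constructor
    · intro hσ
      obtain ⟨π, rfl⟩ := E_surj (h2 σ hσ)
      exact ⟨π, (h1 π).mpr hσ, rfl⟩
    · rintro ⟨π, hπ, rfl⟩
      exact (h1 π).mp hπ
  rw [← Set.ncard_image_of_injective X E_inj, ← this, Set.ncard_coe_finset]

theorem SAv_card (n : ℕ) : (SAv n p132).ncard = (S n).card := by
  apply ncard_eq
  · intro π
    unfold SAv
    rw [mem_Omega_iff, mem_S]
    constructor
    · intro h
      refine ⟨E_sup π, ?_, ?_⟩
      · have := h 1 (by simp)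
        rwa [pow_one] at this
      · have := h 2 (by simp)
        rwa [sq] at this
    · rintro ⟨_, h1, h2⟩ t ht
      rcases ht with rfl | rfl
      · rwa [pow_one]
      · rwa [sq]
  · intro σ hσ
    exact (mem_S.mp hσ).1

theorem T_card (n : ℕ) : (Omega n {1, 2, 3} p132).ncard = (T n).card := by
  apply ncard_eq
  · intro π
    rw [mem_Omega_iff, mem_T]
    constructor
    · intro h
      refine ⟨E_sup π, ?_, ?_, ?_⟩
      · have := h 1 (by simp)
        rwa [pow_one] at this
      · have := h 2 (by simp)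
        rwa [sq] at this
      · have := h 3 (by simp)
        rwa [pow_three, ← mul_assoc] at this
    · rintro ⟨_, h1, h2, h3⟩ t ht
      rcases ht with rfl | rfl | rfl
      · rwa [pow_one]
      · rwa [sq]
      · rwa [pow_three, ← mul_assoc]
  · intro σ hσ
    exact (mem_T.mp hσ).1

theorem I_le_PAv (n : ℕ) : ii n ≤ (PAv n p132).ncard := by
  rw [← I_card]
  have h1 : ({π : Perm (Fin n) | E π ∈ I n} : Set (Perm (Fin n))).ncard = (I n).card := by
    apply ncard_eq
    · intro π; exact Iff.rfl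
    · intro σ hσ
      exact (mem_I.mp hσ).1
  rw [← h1]
  apply Set.ncard_le_ncard _ (Set.toFinite _)
  intro π hπ
  rw [Set.mem_ofPred_eq, mem_I] at hπ
  unfold PAv
  rw [mem_Omega_iff]
  intro t _
  have hone : Av (1 : Perm ℕ) := by
    intro i j k hij hjk
    simp only [Perm.one_apply]
    omega
  rcases Nat.even_or_odd' t with ⟨m, rfl | rfl⟩
  · rw [pow_mul, sq, hπ.2.2, one_pow]; exact hone
  · rw [pow_succ, pow_mul, sq, hπ.2.2, one_pow, one_mul]; exact hπ.2.1

theorem PAv_le_T (n : ℕ) : (PAv n p132).ncard ≤ (Omega n {1, 2, 3} p132).ncard := by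
  apply Set.ncard_le_ncard _ (Set.toFinite _)
  intro π hπ t ht
  apply hπ t
  rcases ht with rfl | rfl | rfl <;> simp

end Pool.Agent.H94.PAv
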