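import Pool.Agent.H94.PAv.Struct

set_option autoImplicit false

namespace Pool.Agent.H94.PAv

open Equiv Finset

/-- strictly increasing map of an interval into an interval of the same length is the shift -/
theorem incr_shift {f : ℕ → ℕ} {a b l : ℕ}
    (hinc : ∀ x y, a ≤ x → x < y → y < a + l → f x < f y)
    (hr : ∀ x, a ≤ x → x < a + l → b ≤ f x ∧ f x < b + l) :
    ∀ i, i < l → f (a + i) = b + i := by
  have hup : ∀ i, i < l → b + i ≤ f (a + i) := by
    intro i
    induction i with
    | zero => intro h; simpa using (hr a le_rfl (by omega)).1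
    | succ i ih =>
      intro h
      have h1 := ih (by omega)
      have h2 := hinc (a + i) (a + (i+1)) (by omega) (by omega) (by omega)
      omega
  have hdown : ∀ d i, i + d + 1 = l → f (a + i) ≤ b + i := by
    intro d
    induction d with
    | zero => intro i hi; have := (hr (a+i) (by omega) (by omega)).2; omega
    | succ d ih =>
      intro i hi
      have h1 := ih (i+1) (by omega)
      have h2 := hinc (a + i) (a + (i+1)) (by omega) (by omega) (by omega)
      omega
  intro i hi
  have h1 := hup i hi
  have h2 := hdown (l - 1 - i) i (by omega)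
  omega

theorem count_lt {σ : Perm ℕ} {A : Finset ℕ} {c : ℕ} (h : ∀ y, σ y < c → y ∈ A)
    (hc : A.card ≤ c) : ∀ y ∈ A, σ y < c := by
  have h1 : (range c).image (σ⁻¹ : Perm ℕ) ⊆ A := by
    intro y hy
    rw [mem_image] at hy
    obtain ⟨v, hv, rfl⟩ := hy
    apply h
    simpa using hv
  have h2 : (range c).image (σ⁻¹ : Perm ℕ) = A := by
    apply eq_of_subset_of_card_le h1
    rw [card_image_of_injective _ (σ⁻¹ : Perm ℕ).injective, card_range]
    exact hc
  intro y hy
  rw [← h2, mem_image] at hy
  obtain ⟨v, hv, rfl⟩ := hy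
  simpa using hv

namespace Sit

variable {n k j : ℕ} {σ : Perm ℕ}

theorem jkk (h : Sit n k j σ) : 2 * k < j := by
  have h1 : σ (j - k) ≤ k := (h.f4' (j - k)).mpr ⟨by omega, by omega⟩
  have h2 := h.kj
  have h3 := h.jn
  have h4 := h.hkn
  by_contra hc
  have := (h.f1 (x := j - k) (by omega)).mp (by omega)
  omega

theorem inW (h : Sit n k j σ) {y : ℕ} (hy : y < n) (hv : σ y < n - 1 - j) :
    ∃ x, j < x ∧ x < n ∧ σ x = y := by
  refine ⟨(σ⁻¹ : Perm ℕ) y, ?_, h.hs.inv.lt hy, by simp⟩
  rw [h.f2' (h.hs.inv.lt hy)]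
  simpa using hv

/-- Case `t = 0`: involution. -/
theorem caseA (h : Sit n k j σ) (hj : j + 1 = n) : ∀ x, σ (σ x) = x := by
  have hkn := h.hkn
  have hkj := h.kj
  have hkk : σ (σ k) = k := by
    have : σ k = j := by have := h.hk; omega
    rw [this, h.hj]
  have hbig : ∀ x, k < x → x < n → k < σ (σ x) := by
    intro x hx hxn
    by_contra hc
    rcases Nat.eq_or_lt_of_le (not_lt.mp hc) with h1 | h1
    · have h2 := σ.injective (h1.trans h.hj.symm)
      have h3 : σ x = σ k := by have := h.hk; omega
      have := σ.injective h3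
      omega
    · have h2 := (h.f4 (σ x)).mp h1
      have h3 := (h.f1 hxn).mpr (by omega)
      omega
  have hid : ∀ x, k + 1 ≤ x → σ (σ x) = x := by
    apply incr_id (n := n) (a := k + 1) (f := fun x => σ (σ x))
    · intro x hx
      rcases lt_or_ge x n with hxn | hxn
      · exact hbig x (by omega) hxn
      · rw [h.hs x hxn, h.hs x hxn]; omega
    · intro x y hx hxy hyn
      have h1 := h.hB k x y (by omega) hxy
      simp only [Perm.mul_apply] at h1
      rw [hkk] at h1
      have h2 := hbig y (by omega) hyn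
      have h3 : σ (σ x) ≠ σ (σ y) := fun hc => by
        have := σ.injective (σ.injective hc); omega
      by_contra hc
      exact h1 ⟨h2, by omega⟩
    · intro x hx
      rw [h.hs x hx, h.hs x hx]
    · intro x hx
      exact h.hs.lt (h.hs.lt hx)
  intro x
  rcases lt_trichotomy x k with hx | rfl | hx
  · have h1 := (h.f1 (x := x) (by omega)).mp hx.le
    have h2 := hid (σ x) (by omega)
    exact σ.injective h2
  · exact hkk
  · exact hid x hx

end Sit

/-- Twisted rotations. -/
structure Rot (n K e : ℕ) (σ : Perm ℕ) : Prop where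
  h2K : 2 * K ≤ n
  heK : e ≤ K
  h1 : ∀ x, K + e ≤ x → x < n → σ x = x - K
  h2 : ∀ x, K ≤ x → x < K + e → σ x < e
  h3 : ∀ x, K ≤ x → x < 2 * K → σ (σ x) = x + (n - 2 * K)

theorem Rot.inj {n K e : ℕ} {σ τ : Perm ℕ} (hs : Sup n σ) (ht : Sup n τ)
    (h : Rot n K e σ) (h' : Rot n K e τ) (hst : ∀ x, K ≤ x → x < K + e → σ x = τ x) :
    σ = τ := by
  have h2K := h.h2K
  have heK := h.heK
  have hbig : ∀ x, K ≤ x → x < n → σ x = τ x := by
    intro x hx hxn
    rcases lt_or_ge x (K + e) with h1 | h1
    · exact hst x hx h1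
    · rw [h.h1 x h1 hxn, h'.h1 x h1 hxn]
  have hlt : ∀ x, K ≤ x → x < 2 * K → σ x < K := by
    intro x hx hx2
    rcases lt_or_ge x (K + e) with h1 | h1
    · exact lt_of_lt_of_le (h.h2 x hx h1) heK
    · rw [h.h1 x h1 (by omega)]; omega
  apply perm_ext_lt hs ht
  intro x hx
  rcases lt_or_ge x K with hxK | hxK
  · -- find y
    have hsurj : (Ico K (2 * K)).image σ = range K := by
      apply eq_of_subset_of_card_le
      · intro y hy
        rw [mem_image] at hy
        obtain ⟨z, hz, rfl⟩ := hy
        rw [mem_Ico] at hz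
        rw [mem_range]
        exact hlt z hz.1 hz.2
      · rw [card_image_of_injective _ σ.injective, card_range, Nat.card_Ico]; omega
    have : x ∈ (Ico K (2 * K)).image σ := by rw [hsurj, mem_range]; exact hxK
    rw [mem_image] at this
    obtain ⟨y, hy, rfl⟩ := this
    rw [mem_Ico] at hy
    rw [h.h3 y hy.1 hy.2, hbig y hy.1 (by omega), h'.h3 y hy.1 hy.2]
  · exact hbig x hxK hx

namespace Sit

variable {n k j : ℕ} {σ : Perm ℕ}

/-- Case `σ (n-1) < j < n-1`. -/
theorem caseB (h : Sit n k j σ) (hjn : j + 1 < n) (hr : σ (n - 1) < j) :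
    Rot n (k + 1) (n - 2 * (k + 1)) σ ∧ 3 * (n - 2 * (k + 1)) < n ∧
      n = 2 * (k + 1) + (n - 2 * (k + 1)) := by
  have hkn := h.hkn
  have hkj := h.kj
  have hjkk := h.jkk
  have hk := h.hk
  -- t ≤ k
  have htk : n - 1 - j ≤ k := by
    by_contra hc
    obtain ⟨x, hx1, hx2, hx3⟩ := h.inW (y := j) (by omega) (by rw [h.hj]; omega)
    rcases Nat.eq_or_lt_of_le (by omega : x ≤ n - 1) with h1 | h1
    · rw [h1] at hx3; omega
    · have := h.f3inc hx1 h1 (by omega)
      omega
  -- positions ≥ m have values ≥ t
  have hge : ∀ y, n - 1 - k ≤ y → y < n → n - 1 - j ≤ σ y := by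
    intro y hy hyn
    have h1 : (σ⁻¹ : Perm ℕ) y < n := h.hs.inv.lt hyn
    have h2 : (σ⁻¹ : Perm ℕ) y ≤ k := (h.f1 h1).mpr (by simpa using hy)
    have h3 := (h.f2 h1).mp (by omega)
    simpa using h3
  have hW : ∀ y, σ y < n - 1 - j ↔ j - k ≤ y ∧ y < n - 1 - k := by
    intro y
    constructor
    · intro hy
      have h1 := (h.f4 y).mp (by omega)
      refine ⟨by omega, ?_⟩
      by_contra hc
      have := hge y (by omega) (by omega)
      omega
    · intro hy
      apply count_lt (A := Ico (j - k) (n - 1 - k)) _ _ y (by rw [mem_Ico]; exact hy)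
      · intro z hz
        have h1 := (h.f4 z).mp (by omega)
        rw [mem_Ico]
        refine ⟨by omega, ?_⟩
        by_contra hc
        have := hge z (by omega) (by omega)
        omega
      · rw [Nat.card_Ico]; omega
  -- values on D
  have hD : ∀ x, j < x → x < n → σ x = x - (k + 1) := by
    have := incr_shift (f := σ) (a := j + 1) (b := j - k) (l := n - 1 - j)
      (fun x y hx hxy hy => h.f3inc (by omega) hxy (by omega))
      (fun x hx hx2 => by
        have h1 := (h.f2' (x := x) (by omega)).mp (by omega)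
        have h2 := (hW (σ x)).mp h1
        omega)
    intro x hx hxn
    have h1 := this (x - (j + 1)) (by omega)
    rw [show j + 1 + (x - (j + 1)) = x by omega] at h1
    omega
  -- values on [m, j]
  have hM : ∀ x, n - 1 - k ≤ x → x ≤ j → σ x = x + k - j := by
    have := incr_shift (f := σ) (a := n - 1 - k) (b := n - 1 - j) (l := j + k + 2 - n)
      (fun x y hx hxy hy => by
        have h1 := h.hA (j - k) x y (by omega) hxy
        have h2 := (hW (j - k)).mpr (by omega)
        have h3 := hge y (by omega) (by omega)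
        have h4 : σ x ≠ σ y := fun hc => by have := σ.injective hc; omega
        by_contra hc
        exact h1 ⟨by omega, by omega⟩)
      (fun x hx hx2 => by
        have h1 := hge x hx (by omega)
        have h2 := (h.f4' x).mpr ⟨by omega, by omega⟩
        omega)
    intro x hx hxn
    have h1 := this (x - (n - 1 - k)) (by omega)
    rw [show n - 1 - k + (x - (n - 1 - k)) = x by omega] at h1
    omega
  -- the position i with σ i = m
  obtain ⟨i, hi⟩ : ∃ i, σ i = n - 1 - k := ⟨(σ⁻¹ : Perm ℕ) (n - 1 - k), by simp⟩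
  have hin : i < n := (h.hs.lt_iff i).mp (by omega)
  have hik : i < k := by
    have h1 := (h.f1 hin).mpr (by omega)
    rcases Nat.eq_or_lt_of_le h1 with h2 | h2
    · rw [h2] at hi; omega
    · exact h2
  have hi2 : σ (σ i) = n - 1 - j := by
    rw [hi, hM (n - 1 - k) le_rfl (by omega)]; omega
  have hj2 : j = 2 * k + 1 := by
    by_contra hc
    have hkk : σ (σ k) = n - 1 - (k + 1) := by
      have : σ k = n - 1 := by omega
      rw [this, hD (n - 1) (by omega) (by omega)]
    have hJ : ∀ v, k < v → v < j - k → k < σ v ∧ σ v < j - k := by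
      intro v hv1 hv2
      have h1 : ¬ v ≤ k := by omega
      rw [h.f1 (by omega)] at h1
      have h2 : ¬ σ v ≤ k := by rw [h.f4' v]; omega
      have h3 : ¬ σ (σ v) < n - 1 - j := by rw [← h.f2' (by omega)]; omega
      rw [hW] at h3
      omega
    have h1 := hJ (k + 1) (by omega) (by omega)
    have h2 := hJ _ h1.1 h1.2
    have h3 := h.hB i k (k + 1) hik (by omega)
    simp only [Perm.mul_apply] at h3
    rw [hi2, hkk] at h3
    exact h3 ⟨by omega, by omega⟩
  refine ⟨⟨hkn, by omega, ?_, ?_, ?_⟩, by omega, by omega⟩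
  · intro x hx hxn
    rcases lt_or_ge j x with h1 | h1
    · exact hD x h1 hxn
    · rw [hM x (by omega) h1]; omega
  · intro x hx hx2
    have := (hW x).mpr (by omega)
    omega
  · have := incr_shift (f := fun x => σ (σ x)) (a := k + 1) (b := n - 1 - k) (l := k + 1)
      (fun x y hx hxy hy => by
        have h1 := h.hB i x y (by omega) hxy
        simp only [Perm.mul_apply] at h1
        rw [hi2] at h1
        have h2 := (h.f4' y).mpr ⟨by omega, by omega⟩
        have h3 := (h.f1 (x := σ y) (by omega)).mp h2
        have h4 : σ (σ x) ≠ σ (σ y) := fun hc => by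
          have := σ.injective (σ.injective hc); omega
        by_contra hc
        exact h1 ⟨by omega, by omega⟩)
      (fun x hx hx2 => by
        have h2 := (h.f4' x).mpr ⟨by omega, by omega⟩
        have h3 := (h.f1 (x := σ x) (by omega)).mp h2
        have h4 : σ (σ x) < n := h.hs.lt (h.hs.lt (by omega))
        omega)
    intro x hx hx2
    have h1 := this (x - (k + 1)) (by omega)
    rw [show k + 1 + (x - (k + 1)) = x by omega] at h1
    omega

end Sit

end Pool.Agent.H94.PAv
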