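import Pool.Agent.H94.PAv.Cases

set_option autoImplicit false

namespace Pool.Agent.H94.PAv

open Equiv Finset

namespace Sit

variable {n k j : ℕ} {σ : Perm ℕ}

/-- In case `σ (n-1) = j`: the last `k+1` positions. -/
theorem caseC0_top (h : Sit n k j σ) (hr : σ (n - 1) = j) :
    j + k + 2 ≤ n ∧ ∀ i, i ≤ k → σ (n - 1 - i) = j - i := by
  have hkn := h.hkn
  have hkj := h.kj
  have hjkk := h.jkk
  have hk := h.hk
  have hjn : j + 1 < n := by
    have h1 := h.jn
    by_contra hc
    have : n - 1 = j := by omega
    rw [this, h.hj] at hr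
    omega
  have ht : k + 1 ≤ n - 1 - j := by
    have h1 := (h.f2' (x := n - 1) (by omega)).mp (by omega)
    rw [hr, h.hj] at h1
    omega
  refine ⟨by omega, ?_⟩
  intro i
  induction i with
  | zero => intro _; simpa using hr
  | succ i ih =>
    intro hi
    have h1 := ih (by omega)
    obtain ⟨x, hx1, hx2, hx3⟩ := h.inW (y := j - (i + 1)) (by omega) (by
      have := (h.f4' (j - (i+1))).mpr ⟨by omega, by omega⟩
      omega)
    have hxlt : x < n - 1 - i := by
      by_contra hc
      rcases Nat.eq_or_lt_of_le (not_lt.mp hc) with h2 | h2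
      · rw [← h2, h1] at hx3; omega
      · have := h.f3inc (x := n - 1 - i) (y := x) (by omega) h2 hx2
        omega
    have h3 : σ (n - 1 - (i + 1)) < σ (n - 1 - i) :=
      h.f3inc (by omega) (by omega) (by omega)
    have h4 : j - (i + 1) ≤ σ (n - 1 - (i + 1)) := by
      rcases Nat.eq_or_lt_of_le (by omega : x ≤ n - 1 - (i + 1)) with h5 | h5
      · rw [← h5, hx3]
      · have := h.f3inc (x := x) (y := n - 1 - (i+1)) hx1 h5 (by omega)
        omega
    omega

/-- Case `σ (n-1) = j`: `σ³` fixes `[0,k]`. -/
theorem caseC0 (h : Sit n k j σ) (hr : σ (n - 1) = j) :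
    ∀ x, x ≤ k → σ (σ (σ x)) = x := by
  have hkn := h.hkn
  have hkj := h.kj
  have hjkk := h.jkk
  have hk := h.hk
  obtain ⟨hjk, htop⟩ := h.caseC0_top hr
  -- σσ on [j-k, j]
  have h0 : σ (σ 0) ≤ j := by
    have h1 := (h.f1 (x := 0) (by omega)).mp (by omega)
    have h2 : σ 0 < n := h.hs.lt (by omega)
    have h3 := htop (n - 1 - σ 0) (by omega)
    rw [show n - 1 - (n - 1 - σ 0) = σ 0 by omega] at h3
    omega
  have hB := incr_shift (f := fun x => σ (σ x)) (a := j - k) (b := n - 1 - k) (l := k + 1)
      (fun x y hx hxy hy => by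
        have h1 := h.hB 0 x y (by omega) hxy
        simp only [Perm.mul_apply] at h1
        have h2 := (h.f4' y).mpr ⟨by omega, by omega⟩
        have h3 := (h.f1 (x := σ y) (by omega)).mp h2
        have h4 : σ (σ x) ≠ σ (σ y) := fun hc => by
          have := σ.injective (σ.injective hc); omega
        by_contra hc
        exact h1 ⟨by omega, by omega⟩)
      (fun x hx hx2 => by
        have h2 := (h.f4' x).mpr ⟨by omega, by omega⟩
        have h3 := (h.f1 (x := σ x) (by omega)).mp h2
        have h4 : σ (σ x) < n := h.hs.lt (h.hs.lt (by omega))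
        omega)
  intro x hx
  have h1 := (h.f1 (x := x) (by omega)).mp hx
  have h2 : σ x < n := h.hs.lt (by omega)
  have h3 := htop (n - 1 - σ x) (by omega)
  rw [show n - 1 - (n - 1 - σ x) = σ x by omega] at h3
  have h4 := hB (k - (n - 1 - σ x)) (by omega)
  rw [show j - k + (k - (n - 1 - σ x)) = σ (σ x) by omega] at h4
  apply σ.injective
  omega

/-- Case `σ (n-1) > j`: twisted rotation. -/
theorem caseC1 (h : Sit n k j σ) (hr : j < σ (n - 1)) :
    ∃ s, 1 ≤ s ∧ 3 * s < n ∧ Rot n s s σ := by
  have hkn := h.hkn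
  have hkj := h.kj
  have hjkk := h.jkk
  have hk := h.hk
  obtain ⟨r, hrr⟩ : ∃ r, σ (n - 1) = r := ⟨_, rfl⟩
  obtain ⟨t, htt⟩ : ∃ t, n - 1 - j = t := ⟨_, rfl⟩
  rw [hrr] at hr
  have hrm : r < n - 1 - k := by
    have : ¬ (n - 1 ≤ k) := by omega
    rw [h.f1 (by omega), hrr] at this
    omega
  have hinc : ∀ x y, j < x → x ≤ y → y < n → σ x ≤ σ y := by
    intro x y h1 h2 h3
    rcases Nat.eq_or_lt_of_le h2 with rfl | h4
    · exact le_rfl
    · exact (h.f3inc h1 h4 h3).le
  have hW1 : ∀ y, y < n → (σ y < t ↔ ∃ x, j < x ∧ x < n ∧ σ x = y) := by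
    intro y hy
    constructor
    · intro hv; exact h.inW hy (by omega)
    · rintro ⟨x, hx1, hx2, rfl⟩
      have := (h.f2' hx2).mp hx1
      omega
  have ha : σ r < t := (hW1 r (by omega)).mpr ⟨n - 1, by omega, by omega, hrr⟩
  have hb : k < σ r := h.f3 (by omega) hr
  have hc : ∀ y, j ≤ y + k → y ≤ r → σ y < t := by
    intro y h1 h2
    rcases le_or_gt y j with h3 | h3
    · have := (h.f4' y).mpr ⟨h1, h3⟩
      omega
    · have := hinc y r h3 h2 (by omega)
      omega
  have hd : ∀ y, r < y → y < n → t ≤ σ y := by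
    intro y h1 h2
    by_contra h3
    obtain ⟨x, hx1, hx2, hx3⟩ := (hW1 y h2).mp (by omega)
    have := hinc x (n - 1) hx1 (by omega) (by omega)
    omega
  obtain ⟨w, hw⟩ : ∃ w, σ (j + 1) = w := ⟨_, rfl⟩
  have hwt : w < t := by rw [← hw]; exact hc (j + 1) (by omega) (by omega)
  have hkw : k < w := by rw [← hw]; exact h.f3 (by omega) (by omega)
  have hWw : ∀ y, y < n → σ y < t → w ≤ y ∧ y ≤ r := by
    intro y hy hv
    obtain ⟨x, hx1, hx2, hx3⟩ := (hW1 y hy).mp hv
    have h1 := hinc (j + 1) x (by omega) (by omega) hx2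
    have h2 := hinc x (n - 1) hx1 (by omega) (by omega)
    omega
  have hsw : σ w < t := (hW1 w (by omega)).mpr ⟨j + 1, by omega, by omega, hw⟩
  have hwj : w ≤ j - k := by
    have := hWw (j - k) (by omega) (hc _ (by omega) (by omega))
    omega
  obtain ⟨w', hw'⟩ : ∃ w', σ (r + 1) = w' := ⟨_, rfl⟩
  have hw't : t ≤ w' := by rw [← hw']; exact hd (r + 1) (by omega) (by omega)
  have hw'r : w' ≤ r := by
    have := hinc (r + 1) (n - 1) (by omega) (by omega) (by omega)
    omega
  have hg : ∀ y, t ≤ y → y < w' → t ≤ σ y := by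
    intro y h1 h2
    by_contra h3
    obtain ⟨x, hx1, hx2, hx3⟩ := (hW1 y (by omega)).mp (by omega)
    rcases le_or_gt x r with h4 | h4
    · have := hc x (by omega) h4
      omega
    · have := hinc (r + 1) x (by omega) h4 hx2
      omega
  have hh : ∀ v, w < v → v ≤ r → t ≤ σ v → σ v < w' := by
    intro v h1 h2 h3
    have h4 := h.hA w v (r + 1) h1 (by omega)
    have h5 : σ v ≠ σ (r + 1) := fun hc => by have := σ.injective hc; omega
    by_contra h6
    exact h4 ⟨by omega, by omega⟩
  -- Z = [t, w')
  have hZ : ∀ v, w < v → v ≤ r → t ≤ σ v → t ≤ v ∧ v < w' := by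
    have h1 : ((Ioc w r).filter (fun v => t ≤ σ v)).card ≤ (Ico t w').card := by
      apply card_le_card_of_injOn σ
      · intro v hv
        simp only [coe_filter, Set.mem_ofPred_eq, mem_Ioc] at hv
        simp only [coe_Ico, Set.mem_Ico]
        exact ⟨hv.2, hh v hv.1.1 hv.1.2 hv.2⟩
      · exact σ.injective.injOn
    have h2 : Ico t w' ⊆ (Ioc w r).filter (fun v => t ≤ σ v) := by
      intro v hv
      rw [mem_Ico] at hv
      rw [mem_filter, mem_Ioc]
      exact ⟨by omega, hg v hv.1 hv.2⟩
    have h3 := eq_of_subset_of_card_le h2 h1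
    intro v hv1 hv2 hv3
    have : v ∈ Ico t w' := by
      rw [h3, mem_filter, mem_Ioc]
      exact ⟨⟨hv1, hv2⟩, hv3⟩
    simpa using this
  have hw'eq : w' = t := by
    by_contra hne
    have hid := incr_shift (f := σ) (a := t) (b := t) (l := w' - t)
      (fun x y hx hxy hy => by
        have h1 := h.hA w x y (by omega) hxy
        have h2 := hg y (by omega) (by omega)
        have h3 : σ x ≠ σ y := fun hc => by have := σ.injective hc; omega
        by_contra hc
        exact h1 ⟨by omega, by omega⟩)
      (fun x hx hx2 => by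
        have h1 := hg x hx (by omega)
        have h2 := hh x (by omega) (by omega) h1
        omega) 0 (by omega)
    have htt' : σ t = t := by simpa using hid
    have h1 := h.hA w t r (by omega) (by omega)
    rw [htt'] at h1
    have h2 : σ w ≠ σ r := fun hc => by have := σ.injective hc; omega
    have h3 : σ (t - 1) < t := by
      by_contra hc3
      rcases Nat.eq_or_lt_of_le (by omega : w ≤ t - 1) with h4 | h4
      · rw [← h4] at hc3; omega
      · have := hZ (t - 1) h4 (by omega) (by omega)
        omega
    obtain ⟨x, hx1, hx2, hx3⟩ := (hW1 (t - 1) (by omega)).mp h3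
    have hxr : x ≤ r := by
      by_contra hc4
      have := hinc (r + 1) x (by omega) (by omega) hx2
      omega
    have h5 := hinc x r hx1 hxr (by omega)
    exact h1 ⟨by omega, ha⟩
  have hWall : ∀ y, w ≤ y → y ≤ r → σ y < t := by
    intro y h1 h2
    by_contra h3
    rcases Nat.eq_or_lt_of_le h1 with h4 | h4
    · rw [← h4] at h3; omega
    · have := hZ y h4 h2 (by omega)
      omega
  -- counting
  have c1 : r + 1 - w ≤ t := by
    have : (Icc w r).card ≤ (range t).card := by
      apply card_le_card_of_injOn σ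
      · intro v hv
        simp only [coe_Icc, Set.mem_Icc] at hv
        simp only [coe_range, Set.mem_Iio]
        exact hWall v hv.1 hv.2
      · exact σ.injective.injOn
    rw [Nat.card_Icc, card_range] at this
    exact this
  have c2 : t ≤ r + 1 - w := by
    have : (Ico (j + 1) n).card ≤ (Icc w r).card := by
      apply card_le_card_of_injOn σ
      · intro v hv
        simp only [coe_Ico, Set.mem_Ico] at hv
        simp only [coe_Icc, Set.mem_Icc]
        have h1 := hinc (j + 1) v (by omega) (by omega) hv.2
        have h2 := hinc v (n - 1) (by omega) (by omega) (by omega)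
        omega
      · exact σ.injective.injOn
    rw [Nat.card_Icc, Nat.card_Ico] at this
    omega
  have hpre : ∀ y, w ≤ y → y < t → ∃ x, j < x ∧ x ≤ r ∧ σ x = y := by
    intro y h1 h2
    obtain ⟨x, hx1, hx2, hx3⟩ := (hW1 y (by omega)).mp (hWall y h1 (by omega))
    refine ⟨x, hx1, ?_, hx3⟩
    by_contra hc4
    have := hinc (r + 1) x (by omega) (by omega) hx2
    omega
  have c3 : r - j ≤ t - w := by
    have : (Ioc j r).card ≤ (Ico w t).card := by
      apply card_le_card_of_injOn σ
      · intro v hv
        simp only [coe_Ioc, Set.mem_Ioc] at hv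
        simp only [coe_Ico, Set.mem_Ico]
        have h1 := hinc (j + 1) v (by omega) (by omega) (by omega)
        have h2 := hc v (by omega) hv.2
        omega
      · exact σ.injective.injOn
    rw [Nat.card_Ioc, Nat.card_Ico] at this
    exact this
  have c4 : t - w ≤ r - j := by
    have : Ico w t ⊆ (Ioc j r).image σ := by
      intro y hy
      rw [mem_Ico] at hy
      obtain ⟨x, hx1, hx2, hx3⟩ := hpre y hy.1 hy.2
      rw [mem_image]
      exact ⟨x, by rw [mem_Ioc]; exact ⟨hx1, hx2⟩, hx3⟩
    have := card_le_card this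
    rw [card_image_of_injective _ σ.injective, Nat.card_Ioc, Nat.card_Ico] at this
    exact this
  have e1 : j + 1 = 2 * w := by omega
  have hD : ∀ x, j < x → x < n → σ x = x - w := by
    have := incr_shift (f := σ) (a := j + 1) (b := w) (l := n - 1 - j)
      (fun x y hx hxy hy => h.f3inc (by omega) hxy (by omega))
      (fun x hx hx2 => by
        have h1 := hinc (j + 1) x (by omega) (by omega) (by omega)
        have h2 := hinc x (n - 1) (by omega) (by omega) (by omega)
        omega)
    intro x hx hxn
    have h1 := this (x - (j + 1)) (by omega)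
    rw [show j + 1 + (x - (j + 1)) = x by omega] at h1
    omega
  have hsm : ∀ x, w ≤ x → x < 2 * w → σ x < w := by
    intro x h1 h2
    by_contra h3
    obtain ⟨x', hx1, hx2, hx3⟩ := hpre (σ x) (by omega) (hWall x h1 (by omega))
    have := σ.injective hx3
    omega
  have hbg : ∀ z, z < w → n - w ≤ σ z := by
    intro z hz
    by_contra h3
    have h4 : t ≤ σ z := by
      by_contra h5
      have := hWw z (by omega) (by omega)
      omega
    obtain ⟨x, hx1, hx2, hx3⟩ := (hW1 (σ z) (by omega)).mp (hWall (σ z) (by omega) (by omega))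
    have := σ.injective hx3
    omega
  refine ⟨w, by omega, by omega, by omega, le_rfl, ?_, ?_, ?_⟩
  · intro x hx hxn
    exact hD x (by omega) hxn
  · intro x hx hx2
    exact hsm x hx (by omega)
  · have := incr_shift (f := fun x => σ (σ x)) (a := w) (b := n - w) (l := w)
      (fun x y hx hxy hy => by
        have h1 := h.hB 0 x y (by omega) hxy
        simp only [Perm.mul_apply] at h1
        have h2 := hbg (σ y) (hsm y (by omega) (by omega))
        have h5 := hbg 0 (by omega)
        have h6 : σ 0 < n := h.hs.lt (by omega)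
        have h7 := hD (σ 0) (by omega) h6
        have h4 : σ (σ x) ≠ σ (σ y) := fun hc => by
          have := σ.injective (σ.injective hc); omega
        by_contra hc
        exact h1 ⟨by omega, by omega⟩)
      (fun x hx hx2 => by
        have h2 := hbg (σ x) (hsm x (by omega) (by omega))
        have h4 : σ (σ x) < n := h.hs.lt (h.hs.lt (by omega))
        omega)
    intro x hx hx2
    have h1 := this (x - w) (by omega)
    rw [show w + (x - w) = x by omega] at h1
    omega

end Sit

end Pool.Agent.H94.PAv
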