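import Pool.Agent.H94.PAv.CasesC

set_option autoImplicit false

namespace Pool.Agent.H94.PAv

open Equiv Finset

open Classical in
noncomputable def A (n : ℕ) : Finset (Perm ℕ) := (PP n).filter (fun σ : Perm ℕ => Av σ)

open Classical in
noncomputable def I (n : ℕ) : Finset (Perm ℕ) :=
  (PP n).filter (fun σ : Perm ℕ => Av σ ∧ σ * σ = 1)

open Classical in
noncomputable def H (n : ℕ) : Finset (Perm ℕ) :=
  (PP n).filter (fun σ : Perm ℕ => Av σ ∧ σ * σ * σ = 1)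

open Classical in
noncomputable def S (n : ℕ) : Finset (Perm ℕ) :=
  (PP n).filter (fun σ : Perm ℕ => Av σ ∧ Av (σ * σ : Perm ℕ))

open Classical in
noncomputable def T (n : ℕ) : Finset (Perm ℕ) :=
  (PP n).filter (fun σ : Perm ℕ => Av σ ∧ Av (σ * σ : Perm ℕ) ∧ Av (σ * σ * σ : Perm ℕ))

open Classical in
noncomputable def Bad (n : ℕ) : Finset (Perm ℕ) :=
  (PP n).filter (fun σ : Perm ℕ => Av σ ∧ Av (σ * σ : Perm ℕ) ∧ σ * σ ≠ 1 ∧ σ (σ (σ 0)) ≠ 0)

theorem mem_A {n : ℕ} {σ : Perm ℕ} : σ ∈ A n ↔ Sup n σ ∧ Av σ := by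
  classical simp only [A, mem_filter, mem_PP]
theorem mem_I {n : ℕ} {σ : Perm ℕ} : σ ∈ I n ↔ Sup n σ ∧ Av σ ∧ σ * σ = 1 := by
  classical simp only [I, mem_filter, mem_PP]
theorem mem_H {n : ℕ} {σ : Perm ℕ} : σ ∈ H n ↔ Sup n σ ∧ Av σ ∧ σ * σ * σ = 1 := by
  classical simp only [H, mem_filter, mem_PP]
theorem mem_S {n : ℕ} {σ : Perm ℕ} : σ ∈ S n ↔ Sup n σ ∧ Av σ ∧ Av (σ * σ : Perm ℕ) := by
  classical simp only [S, mem_filter, mem_PP]
theorem mem_T {n : ℕ} {σ : Perm ℕ} :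
    σ ∈ T n ↔ Sup n σ ∧ Av σ ∧ Av (σ * σ : Perm ℕ) ∧ Av (σ * σ * σ : Perm ℕ) := by
  classical simp only [T, mem_filter, mem_PP]
theorem mem_Bad {n : ℕ} {σ : Perm ℕ} : σ ∈ Bad n ↔ Sup n σ ∧ Av σ ∧ Av (σ * σ : Perm ℕ) ∧
    σ * σ ≠ 1 ∧ σ (σ (σ 0)) ≠ 0 := by
  classical simp only [Bad, mem_filter, mem_PP]

theorem T_le (n : ℕ) : (T n).card ≤ (I n).card + (H n).card + (Bad n).card := by
  classical
  have : T n ⊆ (I n ∪ H n) ∪ Bad n := by
    intro σ hσ
    rw [mem_T] at hσ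
    obtain ⟨h1, h2, h3, h4⟩ := hσ
    rw [mem_union, mem_union, mem_I, mem_H, mem_Bad]
    by_cases h5 : σ * σ = 1
    · exact Or.inl (Or.inl ⟨h1, h2, h5⟩)
    · by_cases h6 : σ (σ (σ 0)) = 0
      · exact Or.inl (Or.inr ⟨h1, h2, h4.eq_one (by simpa using h6)⟩)
      · exact Or.inr ⟨h1, h2, h3, h5, h6⟩
  calc (T n).card ≤ ((I n ∪ H n) ∪ Bad n).card := card_le_card this
    _ ≤ (I n ∪ H n).card + (Bad n).card := card_union_le _ _
    _ ≤ _ := by have := card_union_le (I n) (H n); omega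

open Classical in
theorem rot_card (n K e : ℕ) :
    ((PP n).filter (fun σ : Perm ℕ => Av σ ∧ Rot n K e σ)).card ≤ (A e).card := by
  have hlt : ∀ σ : Perm ℕ, Rot n K e σ → ∀ x < e, σ (K + x) < e :=
    fun σ h x hx => h.h2 (K + x) (by omega) (by omega)
  have hinj : ∀ σ : Perm ℕ, ∀ x < e, ∀ y < e, σ (K + x) = σ (K + y) → x = y :=
    fun σ x _ y _ h => by have := σ.injective h; omega
  apply card_le_card_of_injOn (fun σ => mk e (fun x => σ (K + x)))
  · intro σ hσ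
    simp only [coe_filter, mem_PP, Set.mem_ofPred_eq] at hσ
    obtain ⟨hs, hA, hR⟩ := hσ
    rw [mem_coe, mem_A]
    refine ⟨mk_sup _ _, av_of_lt (mk_sup _ _) ?_⟩
    intro i j k hij hjk hk
    rw [mk_lt (hlt σ hR) (hinj σ) (by omega), mk_lt (hlt σ hR) (hinj σ) (by omega),
      mk_lt (hlt σ hR) (hinj σ) (by omega)]
    exact hA (K + i) (K + j) (K + k) (by omega) (by omega)
  · intro σ hσ τ hτ hst
    simp only [coe_filter, mem_PP, Set.mem_ofPred_eq] at hσ hτ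
    obtain ⟨hs, hA, hR⟩ := hσ
    obtain ⟨hs', hA', hR'⟩ := hτ
    apply Rot.inj hs hs' hR hR'
    intro x hx hx2
    have h1 := congrArg (fun ρ : Perm ℕ => ρ (x - K)) hst
    simp only at h1
    rw [mk_lt (hlt σ hR) (hinj σ) (by omega), mk_lt (hlt τ hR') (hinj τ) (by omega)] at h1
    rw [show K + (x - K) = x by omega] at h1
    exact h1

/-- The part of `Bad n` with the maximum in the first half of the positions. -/
theorem bad_first {n k : ℕ} {σ : Perm ℕ} (hs : Sup n σ) (hA : Av σ) (hB : Av (σ * σ : Perm ℕ))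
    (h2 : σ * σ ≠ 1) (h3 : σ (σ (σ 0)) ≠ 0) (hk : σ k + 1 = n) (hkn : 2 * (k + 1) ≤ n) :
    ∃ K e, 3 * e < n ∧ (K = e ∨ n = 2 * K + e) ∧ Rot n K e σ := by
  obtain ⟨j, hj⟩ : ∃ j, σ j = k := ⟨(σ⁻¹ : Perm ℕ) k, by simp⟩
  have h : Sit n k j σ := ⟨hs, hA, hB, hk, hj, hkn⟩
  have hjn := h.jn
  rcases Nat.eq_or_lt_of_le (by omega : j + 1 ≤ n) with h4 | h4
  · exact absurd (sq_eq_one_iff.mpr (h.caseA h4)) h2
  · rcases lt_trichotomy (σ (n - 1)) j with h5 | h5 | h5
    · obtain ⟨h6, h7, h8⟩ := h.caseB h4 h5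
      exact ⟨_, _, h7, Or.inr h8, h6⟩
    · exact absurd (h.caseC0 h5 0 (by omega)) h3
    · obtain ⟨s, h6, h7, h8⟩ := h.caseC1 h5
      exact ⟨s, s, h7, Or.inl rfl, h8⟩

open Classical in
noncomputable def BadR (n : ℕ) : Finset (Perm ℕ) :=
  (PP n).filter (fun σ : Perm ℕ => Av σ ∧ ∃ K e, 3 * e < n ∧ (K = e ∨ n = 2 * K + e) ∧ Rot n K e σ)

theorem badR_card (n : ℕ) :
    (BadR n).card ≤ 2 * ∑ e ∈ (range n).filter (fun e => 3 * e < n), (A e).card := by
  classical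
  have hsub : BadR n ⊆ ((range n).filter (fun e => 3 * e < n)).biUnion (fun e =>
      ((PP n).filter (fun σ : Perm ℕ => Av σ ∧ Rot n e e σ)) ∪
      ((PP n).filter (fun σ : Perm ℕ => Av σ ∧ Rot n ((n - e) / 2) e σ))) := by
    intro σ hσ
    unfold BadR at hσ
    rw [mem_filter, mem_PP] at hσ
    obtain ⟨hs, hA, K, e, h1, h2, h3⟩ := hσ
    rw [mem_biUnion]
    refine ⟨e, by rw [mem_filter, mem_range]; omega, ?_⟩
    rw [mem_union, mem_filter, mem_filter, mem_PP]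
    rcases h2 with rfl | h2
    · exact Or.inl ⟨hs, hA, h3⟩
    · right
      have : (n - e) / 2 = K := by omega
      rw [this]
      exact ⟨hs, hA, h3⟩
  calc (BadR n).card ≤ _ := card_le_card hsub
    _ ≤ ∑ e ∈ (range n).filter (fun e => 3 * e < n), _ := card_biUnion_le
    _ ≤ ∑ e ∈ (range n).filter (fun e => 3 * e < n), 2 * (A e).card := by
        apply sum_le_sum
        intro e _
        have h1 := rot_card n e e
        have h2 := rot_card n ((n - e) / 2) e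
        have h3 := card_union_le ((PP n).filter (fun σ : Perm ℕ => Av σ ∧ Rot n e e σ))
          ((PP n).filter (fun σ : Perm ℕ => Av σ ∧ Rot n ((n - e) / 2) e σ))
        omega
    _ = _ := by rw [mul_sum]

theorem bad_succ (n : ℕ) : (Bad (n + 1)).card ≤ (Bad n).card +
    4 * ∑ e ∈ (range (n + 1)).filter (fun e => 3 * e < n + 1), (A e).card := by
  classical
  have hsub : Bad (n + 1) ⊆ (Bad n ∪ BadR (n + 1)) ∪ (BadR (n + 1)).image (fun σ => σ⁻¹) := by
    intro σ hσ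
    rw [mem_Bad] at hσ
    obtain ⟨hs, hA, hB, h2, h3⟩ := hσ
    obtain ⟨k, hk⟩ : ∃ k, σ k = n := ⟨(σ⁻¹ : Perm ℕ) n, by simp⟩
    have hkn : k < n + 1 := (hs.lt_iff k).mp (by omega)
    rw [mem_union, mem_union]
    rcases Nat.eq_or_lt_of_le (by omega : k ≤ n) with h4 | h4
    · left; left
      rw [mem_Bad]
      refine ⟨hs.le (by rw [← h4] at hk ⊢; exact hk), hA, hB, h2, h3⟩
    · rcases le_or_gt (2 * (k + 1)) (n + 1) with h5 | h5
      · left; right
        unfold BadR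
        rw [mem_filter, mem_PP]
        exact ⟨hs, hA, bad_first hs hA hB h2 h3 (by omega) h5⟩
      · right
        rw [mem_image]
        refine ⟨σ⁻¹, ?_, by simp⟩
        unfold BadR
        rw [mem_filter, mem_PP]
        refine ⟨hs.inv, hA.inv, ?_⟩
        have h6 : ¬ (n ≤ k) := by omega
        have hF := F1 (k := k) hs hA (by omega) (x := n) (by omega)
        rw [hF] at h6
        apply bad_first (k := σ n) hs.inv hA.inv
        · have : (σ⁻¹ * σ⁻¹ : Perm ℕ) = (σ * σ)⁻¹ := by group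
          rw [this]
          exact hB.inv
        · intro hc
          apply h2
          have h7 : (σ * σ)⁻¹ = 1 := by rw [mul_inv_rev]; exact hc
          rw [← inv_inv (σ * σ), h7, inv_one]
        · intro hc
          apply h3
          have h7 : σ (σ (σ ((σ⁻¹ : Perm ℕ) ((σ⁻¹ : Perm ℕ) ((σ⁻¹ : Perm ℕ) 0))))) = 0 := by simp
          rw [hc] at h7
          exact h7
        · simp
        · omega
  have h1 := badR_card (n + 1)
  have h2 := card_le_card hsub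
  have h3 := card_union_le (Bad n ∪ BadR (n + 1)) ((BadR (n + 1)).image (fun σ => σ⁻¹))
  have h4 := card_union_le (Bad n) (BadR (n + 1))
  have h5 := card_image_le (s := BadR (n + 1)) (f := fun σ : Perm ℕ => σ⁻¹)
  omega

end Pool.Agent.H94.PAv
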