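import Pool.Agent.H94.PAv.Count

set_option autoImplicit false

namespace Pool.Agent.H94.PAv

open Equiv Finset

/-- glue: `L n R` -/
noncomputable def glueF (n k : ℕ) (L R : Perm ℕ) (x : ℕ) : ℕ :=
  if x < k then n - k + L x else if x = k then n else R (x - (k + 1))

section
variable {n k : ℕ} {L R : Perm ℕ}

theorem glue_lt (hk : k ≤ n) (hL : Sup k L) (hR : Sup (n - k) R) :
    ∀ x < n + 1, glueF n k L R x < n + 1 := by
  intro x hx
  unfold glueF
  split_ifs with h1 h2
  · have := hL.lt h1; omega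
  · omega
  · have := hR.lt (x := x - (k+1)) (by omega); omega

theorem glue_inj (hk : k ≤ n) (hL : Sup k L) (hR : Sup (n - k) R) :
    ∀ x < n + 1, ∀ y < n + 1, glueF n k L R x = glueF n k L R y → x = y := by
  have hLl : ∀ x, x < k → L x < k := fun x => hL.lt
  have hRl : ∀ x, x < n - k → R x < n - k := fun x => hR.lt
  have hLi : ∀ x y, L x = L y → x = y := fun x y h => L.injective h
  have hRi : ∀ x y, R x = R y → x = y := fun x y h => R.injective h
  intro x hx y hy
  unfold glueF
  intro h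
  split_ifs at h with h1 h2 h3 h4 h5 h6 h7 h8
  · exact hLi x y (by omega)
  · have := hLl x h1; omega
  · have := hRl (y - (k+1)) (by omega); omega
  · have := hLl y (by omega); omega
  · omega
  · have := hRl (y - (k+1)) (by omega); omega
  · have := hRl (x - (k+1)) (by omega); omega
  · have := hRl (x - (k+1)) (by omega); omega
  · have := hRi _ _ h; omega

theorem glue_av (hk : k ≤ n) (hL : Sup k L) (hR : Sup (n - k) R) (hLA : Av L) (hRA : Av R) :
    Av (mk (n + 1) (glueF n k L R)) := by
  have hLl : ∀ x, x < k → L x < k := fun x => hL.lt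
  have hRl : ∀ x, x < n - k → R x < n - k := fun x => hR.lt
  apply av_of_lt (mk_sup _ _)
  intro a b c hab hbc hc
  rw [mk_lt (glue_lt hk hL hR) (glue_inj hk hL hR) (by omega),
    mk_lt (glue_lt hk hL hR) (glue_inj hk hL hR) (by omega),
    mk_lt (glue_lt hk hL hR) (glue_inj hk hL hR) (by omega)]
  rintro ⟨h1, h2⟩
  unfold glueF at h1 h2
  rcases lt_trichotomy c k with hck | hck | hck
  · rw [if_pos (by omega), if_pos (by omega)] at h1 h2
    exact hLA a b c hab hbc ⟨by omega, by omega⟩
  · rw [if_neg (by omega), if_pos hck, if_pos (by omega)] at h2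
    have := hLl b (by omega)
    omega
  · rw [if_neg (by omega : ¬ c < k), if_neg (by omega : ¬ c = k)] at h1 h2
    have hc' := hRl (c - (k+1)) (by omega)
    rcases lt_trichotomy a k with hak | hak | hak
    · rw [if_pos hak] at h1; omega
    · rw [if_neg (by omega), if_pos hak] at h1; omega
    · rw [if_neg (by omega : ¬ a < k), if_neg (by omega : ¬ a = k)] at h1
      rw [if_neg (by omega : ¬ b < k), if_neg (by omega : ¬ b = k)] at h2
      exact hRA (a - (k+1)) (b - (k+1)) (c - (k+1)) (by omega) (by omega) ⟨h1, h2⟩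

end

/-- left and right parts -/
noncomputable def lpart (n k : ℕ) (σ : Perm ℕ) : Perm ℕ := mk k (fun x => σ x - (n - k))
noncomputable def rpart (n k : ℕ) (σ : Perm ℕ) : Perm ℕ := mk (n - k) (fun x => σ (k + 1 + x))

theorem lpart_sup (n k : ℕ) (σ : Perm ℕ) : Sup k (lpart n k σ) := mk_sup _ _
theorem rpart_sup (n k : ℕ) (σ : Perm ℕ) : Sup (n - k) (rpart n k σ) := mk_sup _ _

section
variable {n k : ℕ} {σ : Perm ℕ}

theorem f1' (hs : Sup (n + 1) σ) (hA : Av σ) (hk : σ k = n) {x : ℕ} (hx : x < n + 1) :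
    x ≤ k ↔ n - k ≤ σ x := by
  have := F1 hs hA (k := k) (by omega) hx
  simpa using this

theorem lpart_apply (hs : Sup (n + 1) σ) (hA : Av σ) (hk : σ k = n) {x : ℕ} (hx : x < k) :
    lpart n k σ x = σ x - (n - k) := by
  have hkn : k < n + 1 := (hs.lt_iff k).mp (by omega)
  unfold lpart
  apply mk_lt _ _ hx
  · intro y hy
    have h1 := (f1' hs hA hk (x := y) (by omega)).mp (by omega)
    have h2 := hs.lt (x := y) (by omega)
    have h3 : σ y ≠ n := fun hc => by rw [← hk] at hc; have := σ.injective hc; omega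
    omega
  · intro y hy z hz h
    have h1 := (f1' hs hA hk (x := y) (by omega)).mp (by omega)
    have h2 := (f1' hs hA hk (x := z) (by omega)).mp (by omega)
    exact σ.injective (by omega)

theorem rpart_apply (hs : Sup (n + 1) σ) (hA : Av σ) (hk : σ k = n) {x : ℕ} (hx : x < n - k) :
    rpart n k σ x = σ (k + 1 + x) := by
  unfold rpart
  apply mk_lt _ _ hx
  · intro y hy
    have h1 := f1' hs hA hk (x := k + 1 + y) (by omega)
    omega
  · intro y hy z hz h
    have := σ.injective h
    omega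

theorem lpart_av (hs : Sup (n + 1) σ) (hA : Av σ) (hk : σ k = n) : Av (lpart n k σ) := by
  have hkn : k < n + 1 := (hs.lt_iff k).mp (by omega)
  apply av_of_lt (lpart_sup _ _ _)
  intro a b c hab hbc hc
  rw [lpart_apply hs hA hk (by omega), lpart_apply hs hA hk (by omega),
    lpart_apply hs hA hk (by omega)]
  have h1 := (f1' hs hA hk (x := a) (by omega)).mp (by omega)
  have h2 := (f1' hs hA hk (x := b) (by omega)).mp (by omega)
  have h3 := (f1' hs hA hk (x := c) (by omega)).mp (by omega)
  have := hA a b c hab hbc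
  omega

theorem rpart_av (hs : Sup (n + 1) σ) (hA : Av σ) (hk : σ k = n) : Av (rpart n k σ) := by
  apply av_of_lt (rpart_sup _ _ _)
  intro a b c hab hbc hc
  rw [rpart_apply hs hA hk (by omega), rpart_apply hs hA hk (by omega),
    rpart_apply hs hA hk (by omega)]
  exact hA _ _ _ (by omega) (by omega)

end

theorem A_succ (n : ℕ) :
    (A (n + 1)).card = ∑ k ∈ range (n + 1), (A k).card * (A (n - k)).card := by
  classical
  have : ∑ k ∈ range (n + 1), (A k).card * (A (n - k)).card =
      ((range (n + 1)).sigma (fun k => A k ×ˢ A (n - k))).card := by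
    rw [card_sigma]
    apply sum_congr rfl
    intro k _
    rw [card_product]
  rw [this]
  apply card_nbij' (i := fun σ => (⟨(σ⁻¹ : Perm ℕ) n, (lpart n ((σ⁻¹ : Perm ℕ) n) σ,
      rpart n ((σ⁻¹ : Perm ℕ) n) σ)⟩ : Σ _ : ℕ, Perm ℕ × Perm ℕ))
    (j := fun p => mk (n + 1) (glueF n p.1 p.2.1 p.2.2))
  · intro σ hσ
    rw [mem_coe, mem_A] at hσ
    obtain ⟨hs, hA⟩ := hσ
    have hk : σ ((σ⁻¹ : Perm ℕ) n) = n := by simp
    have hkn : (σ⁻¹ : Perm ℕ) n < n + 1 := hs.inv.lt (by omega)
    simp only [coe_sigma, Set.mem_sigma_iff, mem_coe, mem_range, mem_product, mem_A]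
    exact ⟨hkn, ⟨lpart_sup _ _ _, lpart_av hs hA hk⟩, ⟨rpart_sup _ _ _, rpart_av hs hA hk⟩⟩
  · rintro ⟨k, L, R⟩ hp
    simp only [coe_sigma, Set.mem_sigma_iff, mem_coe, mem_range, mem_product, mem_A] at hp
    obtain ⟨hk, ⟨hL, hLA⟩, ⟨hR, hRA⟩⟩ := hp
    rw [mem_coe, mem_A]
    exact ⟨mk_sup _ _, glue_av (Nat.lt_succ_iff.mp hk) hL hR hLA hRA⟩
  · intro σ hσ
    rw [mem_coe, mem_A] at hσ
    obtain ⟨hs, hA⟩ := hσ
    obtain ⟨k, hk0⟩ : ∃ k, (σ⁻¹ : Perm ℕ) n = k := ⟨_, rfl⟩
    have hk : σ k = n := by rw [← hk0]; simp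
    have hkn : k < n + 1 := (hs.lt_iff k).mp (by omega)
    simp only [hk0]
    apply perm_ext_lt (mk_sup _ _) hs
    intro x hx
    rw [mk_lt (glue_lt (Nat.lt_succ_iff.mp hkn) (lpart_sup _ _ _) (rpart_sup _ _ _))
      (glue_inj (Nat.lt_succ_iff.mp hkn) (lpart_sup _ _ _) (rpart_sup _ _ _)) hx]
    unfold glueF
    split_ifs with h1 h2
    · rw [lpart_apply hs hA hk h1]
      have := (f1' hs hA hk hx).mp (by omega)
      omega
    · rw [h2, hk]
    · rw [rpart_apply hs hA hk (by omega)]
      congr 1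
      omega
  · rintro ⟨k, L, R⟩ hp
    simp only [coe_sigma, Set.mem_sigma_iff, mem_coe, mem_range, mem_product, mem_A] at hp
    obtain ⟨hk, ⟨hL, hLA⟩, ⟨hR, hRA⟩⟩ := hp
    have hgl := glue_lt (k := k) (n := n) (by omega) hL hR
    have hgi := glue_inj (k := k) (n := n) (by omega) hL hR
    have hk' : mk (n + 1) (glueF n k L R) k = n := by
      rw [mk_lt hgl hgi (by omega)]; simp [glueF]
    have hki : ((mk (n + 1) (glueF n k L R))⁻¹ : Perm ℕ) n = k := by
      rw [Perm.inv_eq_iff_eq]; exact hk'.symm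
    have hs : Sup (n + 1) (mk (n + 1) (glueF n k L R)) := mk_sup _ _
    have hA : Av (mk (n + 1) (glueF n k L R)) := glue_av (by omega) hL hR hLA hRA
    simp only [hki]
    congr 1
    apply Prod.ext
    · apply perm_ext_lt (lpart_sup _ _ _) hL
      intro x hx
      rw [lpart_apply hs hA hk' hx, mk_lt hgl hgi (by omega)]
      unfold glueF
      rw [if_pos hx]
      omega
    · apply perm_ext_lt (rpart_sup _ _ _) hR
      intro x hx
      rw [rpart_apply hs hA hk' hx, mk_lt hgl hgi (by omega)]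
      unfold glueF
      rw [if_neg (by omega), if_neg (by omega)]
      congr 1
      omega

theorem A_zero : (A 0).card = 1 := by
  have : A 0 = {1} := by
    ext σ
    rw [mem_A, mem_singleton]
    constructor
    · rintro ⟨h, _⟩
      ext x; simpa using h x (Nat.zero_le x)
    · rintro rfl
      exact ⟨Sup.one 0, fun i j k h1 h2 => by simp; omega⟩
  rw [this, card_singleton]

theorem A_card (n : ℕ) : (A n).card = catalan n := by
  induction n using Nat.strong_induction_on with
  | _ n ih =>
    cases n with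
    | zero => rw [A_zero, catalan_zero]
    | succ n =>
      rw [A_succ, catalan_succ, ← Fin.sum_univ_eq_sum_range
        (fun k => (A k).card * (A (n - k)).card) (n + 1)]
      apply sum_congr rfl
      intro i _
      rw [ih i (by omega), ih (n - i) (by omega)]

end Pool.Agent.H94.PAv
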