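import Pool.Agent.H94.PAv.CountI

set_option autoImplicit false

namespace Pool.Agent.H94.PAv

open Equiv Finset

open Classical in
/-- admissible numbers -/
noncomputable def Adm (n : ℕ) (σ : Perm ℕ) : Finset ℕ :=
  (range (n + 1)).filter (fun q => 2 * q ≤ n ∧ ∀ x < q, n - q ≤ σ x)

theorem mem_Adm {n q : ℕ} {σ : Perm ℕ} :
    q ∈ Adm n σ ↔ 2 * q ≤ n ∧ ∀ x < q, n - q ≤ σ x := by
  classical
  simp only [Adm, mem_filter, mem_range]
  constructor
  · exact fun h => h.2
  · exact fun h => ⟨by omega, h⟩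

theorem zero_mem_Adm (n : ℕ) (σ : Perm ℕ) : 0 ∈ Adm n σ := by
  rw [mem_Adm]; exact ⟨by omega, fun x hx => by omega⟩

theorem Adm_card_le (n : ℕ) (σ : Perm ℕ) : (Adm n σ).card ≤ n + 1 := by
  classical
  unfold Adm
  calc _ ≤ (range (n+1)).card := card_filter_le _ _
    _ = n + 1 := card_range _

theorem adm_pos {n q : ℕ} {σ : Perm ℕ} (hs : Sup n σ) (hq : q ∈ Adm n σ) :
    ∀ y, n - q ≤ σ y → y < n → y < q := by
  rw [mem_Adm] at hq
  have himg : (range q).image σ = Ico (n - q) n := by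
    apply eq_of_subset_of_card_le
    · intro v hv
      rw [mem_image] at hv
      obtain ⟨x, hx, rfl⟩ := hv
      rw [mem_range] at hx
      rw [mem_Ico]
      exact ⟨hq.2 x hx, hs.lt (by omega)⟩
    · rw [card_image_of_injective _ σ.injective, card_range, Nat.card_Ico]; omega
  intro y hy hyn
  have : σ y ∈ Ico (n - q) n := by rw [mem_Ico]; exact ⟨hy, hs.lt hyn⟩
  rw [← himg, mem_image] at this
  obtain ⟨x, hx, hxy⟩ := this
  rw [mem_range] at hx
  rw [← σ.injective hxy]
  exact hx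

/-- rank lemma -/
theorem rank_card (r : ℕ) (hr : 1 ≤ r) (B : Finset ℕ) :
    (B.filter (fun q => r ≤ (B.filter (fun e => e ≤ q)).card)).card ≤ B.card + 1 - r := by
  induction B using Finset.induction_on_max with
  | empty => simp
  | insert a B ha ih =>
    have haB : a ∉ B := fun h => lt_irrefl _ (ha a h)
    have h1 : (insert a B).card = B.card + 1 := card_insert_of_notMem haB
    have h2 : ∀ q ∈ B, ((insert a B).filter (fun e => e ≤ q)) = B.filter (fun e => e ≤ q) := by
      intro q hq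
      rw [filter_insert, if_neg (by have := ha q hq; omega)]
    have h3 : ((insert a B).filter (fun e => e ≤ a)).card = B.card + 1 := by
      rw [filter_true_of_mem, h1]
      intro e he
      rw [mem_insert] at he
      rcases he with rfl | he
      · exact le_rfl
      · exact (ha e he).le
    rw [filter_insert, h3]
    have h4 : B.filter (fun q => r ≤ ((insert a B).filter (fun e => e ≤ q)).card) =
        B.filter (fun q => r ≤ (B.filter (fun e => e ≤ q)).card) := by
      apply filter_congr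
      intro q hq
      rw [h2 q hq]
    rw [h4]
    split_ifs with h5
    · have := card_insert_le a (B.filter (fun q => r ≤ (B.filter (fun e => e ≤ q)).card))
      omega
    · omega

def eF (k j x : ℕ) : ℕ := if x + (k + 1) < j - k then x + (k + 1) else x + 2 * (k + 1)
def eI (k j y : ℕ) : ℕ := if y < j - k then y - (k + 1) else y - 2 * (k + 1)
def inQ (n k j y : ℕ) : Prop := (k < y ∧ y < j - k) ∨ (j < y ∧ y < n - (k + 1))

noncomputable def rem (n k j : ℕ) (σ : Perm ℕ) : Perm ℕ :=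
  mk (n - 3 * (k + 1)) (fun x => eI k j (σ (eF k j x)))

theorem rem_sup (n k j : ℕ) (σ : Perm ℕ) : Sup (n - 3 * (k + 1)) (rem n k j σ) := mk_sup _ _

/-- order-three situation -/
structure Sit3 (n k j : ℕ) (σ : Perm ℕ) : Prop extends Sit n k j σ where
  hc : ∀ x, σ (σ (σ x)) = x

namespace Sit3

variable {n k j : ℕ} {σ : Perm ℕ}

theorem last (h : Sit3 n k j σ) : σ (n - 1) = j := by
  have h1 := h.hc j
  rw [h.hj] at h1
  have h2 : σ k = n - 1 := by have := h.hk; omega
  rw [h2] at h1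
  exact h1

theorem jk (h : Sit3 n k j σ) : j + k + 2 ≤ n := (h.caseC0_top h.last).1

theorem top (h : Sit3 n k j σ) {i : ℕ} (hi : i ≤ k) : σ (n - 1 - i) = j - i :=
  (h.caseC0_top h.last).2 i hi

theorem hU (h : Sit3 n k j σ) {y : ℕ} (hy : y < n) : j < σ y ↔ y < n - 1 - j := by
  have := h.f2' (x := σ y) (h.hs.lt hy)
  rw [h.hc] at this
  exact this

theorem ht (h : Sit3 n k j σ) : n - 1 - j ≤ j - k := by
  have h1 := h.jk
  have h2 := h.jkk
  by_contra hc
  have h3 := (h.hU (y := j - k) (by omega)).mpr (by omega)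
  have h4 := (h.f4' (j - k)).mpr ⟨by omega, by omega⟩
  omega

theorem Q_closed (h : Sit3 n k j σ) {y : ℕ} (hy : inQ n k j y) : inQ n k j (σ y) := by
  have h1 := h.jk
  have h2 := h.jkk
  unfold inQ at hy ⊢
  have h3 : ¬ σ y ≤ k := by rw [h.f4' y]; omega
  have h4 : ¬ y ≤ k := by omega
  rw [h.f1 (by omega)] at h4
  have h5 : ¬ (j - k ≤ σ y ∧ σ y ≤ j) := by
    rintro ⟨h6, h7⟩
    have h8 := h.top (i := j - σ y) (by omega)
    have h9 := σ.injective (h8.trans (by omega : j - (j - σ y) = σ y))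
    omega
  omega

theorem eF_inQ (h : Sit3 n k j σ) {x : ℕ} (hx : x < n - 3 * (k + 1)) : inQ n k j (eF k j x) := by
  have h1 := h.jk
  have h2 := h.jkk
  have h3 := h.ht
  unfold inQ eF
  split_ifs <;> omega

theorem eI_eF (h : Sit3 n k j σ) {x : ℕ} (hx : x < n - 3 * (k + 1)) : eI k j (eF k j x) = x := by
  have h1 := h.jk
  have h2 := h.jkk
  unfold eI eF
  split_ifs <;> omega

theorem eF_eI (h : Sit3 n k j σ) {y : ℕ} (hy : inQ n k j y) : eF k j (eI k j y) = y := by
  have h1 := h.jk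
  have h2 := h.jkk
  unfold inQ at hy
  unfold eI eF
  split_ifs <;> omega

theorem eI_lt (h : Sit3 n k j σ) {y : ℕ} (hy : inQ n k j y) : eI k j y < n - 3 * (k + 1) := by
  have h1 := h.jk
  have h2 := h.jkk
  have h3 := h.ht
  unfold inQ at hy
  unfold eI
  split_ifs <;> omega

theorem eI_mono (h : Sit3 n k j σ) {y z : ℕ} (hy : inQ n k j y) (hz : inQ n k j z) :
    eI k j y < eI k j z ↔ y < z := by
  have h1 := h.jk
  have h2 := h.jkk
  unfold inQ at hy hz
  unfold eI
  split_ifs <;> omega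

theorem eF_mono (h : Sit3 n k j σ) {x y : ℕ} (hxy : x < y) :
    eF k j x < eF k j y := by
  unfold eF
  split_ifs <;> omega

theorem rem_apply (h : Sit3 n k j σ) {x : ℕ} (hx : x < n - 3 * (k + 1)) :
    rem n k j σ x = eI k j (σ (eF k j x)) := by
  unfold rem
  apply mk_lt _ _ hx
  · intro y hy
    exact h.eI_lt (h.Q_closed (h.eF_inQ hy))
  · intro y hy z hz hyz
    have h1 := h.Q_closed (h.eF_inQ hy)
    have h2 := h.Q_closed (h.eF_inQ hz)
    have h3 : σ (eF k j y) = σ (eF k j z) := by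
      rw [← h.eF_eI h1, ← h.eF_eI h2, hyz]
    rw [← h.eI_eF hy, ← h.eI_eF hz, σ.injective h3]

theorem rem_mem (h : Sit3 n k j σ) : rem n k j σ ∈ H (n - 3 * (k + 1)) := by
  rw [mem_H]
  refine ⟨rem_sup _ _ _ _, av_of_lt (rem_sup _ _ _ _) ?_, ?_⟩
  · intro a b c hab hbc hc
    have hb : b < n - 3 * (k + 1) := by omega
    have ha : a < n - 3 * (k + 1) := by omega
    rw [h.rem_apply ha, h.rem_apply hb, h.rem_apply hc,
      h.eI_mono (h.Q_closed (h.eF_inQ ha)) (h.Q_closed (h.eF_inQ hc)),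
      h.eI_mono (h.Q_closed (h.eF_inQ hc)) (h.Q_closed (h.eF_inQ hb))]
    exact h.hA _ _ _ (h.eF_mono hab) (h.eF_mono hbc)
  · rw [cube_eq_one_iff]
    intro x
    rcases lt_or_ge x (n - 3 * (k + 1)) with hx | hx
    · have h1 := h.Q_closed (h.eF_inQ hx)
      have h2 := h.Q_closed h1
      rw [h.rem_apply hx, h.rem_apply (h.eI_lt h1), h.eF_eI h1, h.rem_apply (h.eI_lt h2),
        h.eF_eI h2, h.hc, h.eI_eF hx]
    · rw [rem_sup n k j σ x hx, rem_sup n k j σ x hx, rem_sup n k j σ x hx]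

theorem q_mem (h : Sit3 n k j σ) : n - j - k - 2 ∈ Adm (n - 3 * (k + 1)) (rem n k j σ) := by
  have h1 := h.jk
  have h2 := h.jkk
  have h3 := h.ht
  rw [mem_Adm]
  refine ⟨by omega, ?_⟩
  intro x hx
  rw [h.rem_apply (by omega)]
  have e1 : eF k j x = x + (k + 1) := by unfold eF; rw [if_pos (by omega)]
  rw [e1]
  have h4 := (h.hU (y := x + (k + 1)) (by omega)).mpr (by omega)
  unfold eI
  rw [if_neg (by omega)]
  omega

theorem adm_card (h : Sit3 n k j σ) : (Adm n σ).card ≤ 1 +
    ((Adm (n - 3 * (k + 1)) (rem n k j σ)).filter (fun e => e ≤ n - j - k - 2)).card := by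
  classical
  have h1 := h.jk
  have h2 := h.jkk
  have h3 := h.ht
  have hsub : Adm n σ ⊆ insert 0 (((Adm (n - 3 * (k + 1)) (rem n k j σ)).filter
      (fun e => e ≤ n - j - k - 2)).image (fun e => e + (k + 1))) := by
    intro q hq
    rw [mem_insert]
    by_cases hq0 : q = 0
    · exact Or.inl hq0
    right
    have hpos := adm_pos h.hs hq
    have hq' := mem_Adm.mp hq
    have hkq : k < q := hpos k (by have := h.hk; omega) (by omega)
    have hqt : q ≤ n - 1 - j := by
      by_contra hc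
      have h4 := hq'.2 (n - 1 - j) (by omega)
      have h5 : ¬ j < σ (n - 1 - j) := by rw [h.hU (by omega)]; omega
      have h6 := hpos (n - 1) (by rw [h.last]; omega) (by omega)
      omega
    rw [mem_image]
    refine ⟨q - (k + 1), ?_, by omega⟩
    rw [mem_filter, mem_Adm]
    refine ⟨⟨by omega, ?_⟩, by omega⟩
    intro x hx
    rw [h.rem_apply (by omega)]
    have e1 : eF k j x = x + (k + 1) := by unfold eF; rw [if_pos (by omega)]
    rw [e1]
    have h4 := (h.hU (y := x + (k + 1)) (by omega)).mpr (by omega)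
    have h5 := hq'.2 (x + (k + 1)) (by omega)
    unfold eI
    rw [if_neg (by omega)]
    omega
  calc (Adm n σ).card ≤ _ := card_le_card hsub
    _ ≤ _ + 1 := card_insert_le _ _
    _ ≤ _ := by
      have := card_image_le (s := (Adm (n - 3 * (k + 1)) (rem n k j σ)).filter
        (fun e => e ≤ n - j - k - 2)) (f := fun e => e + (k + 1))
      omega

theorem ext' {τ : Perm ℕ} (h : Sit3 n k j σ) (h' : Sit3 n k j τ)
    (hL : lpart (n - 1) k σ = lpart (n - 1) k τ) (hR : rem n k j σ = rem n k j τ) : σ = τ := by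
  have h1 := h.jk
  have h2 := h.jkk
  have hs := h.hs
  have hs' := h'.hs
  have hlow : ∀ x, x ≤ k → σ x = τ x := by
    intro x hx
    rcases Nat.eq_or_lt_of_le hx with rfl | hx
    · have := h.hk; have := h'.hk; omega
    · have e1 : lpart (n - 1) k σ x = lpart (n - 1) k τ x := by rw [hL]
      rw [lpart_apply (n := n - 1) (by rw [show n - 1 + 1 = n by omega]; exact hs) h.hA
          (by have := h.hk; omega) hx,
        lpart_apply (n := n - 1) (by rw [show n - 1 + 1 = n by omega]; exact hs') h'.hA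
          (by have := h'.hk; omega) hx] at e1
      have e2 := (h.f1 (x := x) (by omega)).mp (by omega)
      have e3 := (h'.f1 (x := x) (by omega)).mp (by omega)
      omega
  have hQ : ∀ y, inQ n k j y → σ y = τ y := by
    intro y hy
    have e1 : rem n k j σ (eI k j y) = rem n k j τ (eI k j y) := by rw [hR]
    rw [h.rem_apply (h.eI_lt hy), h'.rem_apply (h.eI_lt hy), h.eF_eI hy] at e1
    rw [← h.eF_eI (h.Q_closed hy), ← h'.eF_eI (h'.Q_closed hy), e1]
  apply perm_ext_lt hs hs'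
  intro x hx
  rcases le_or_gt x k with c1 | c1
  · exact hlow x c1
  rcases lt_or_ge x (j - k) with c2 | c2
  · exact hQ x (Or.inl ⟨c1, c2⟩)
  rcases le_or_gt x j with c3 | c3
  · have e1 := (h.f4' x).mpr ⟨by omega, c3⟩
    have e2 := (h'.f4' x).mpr ⟨by omega, c3⟩
    have e3 := h.top (i := j - x) (by omega)
    have e4 := h'.top (i := j - x) (by omega)
    have e5 : σ (σ x) = n - 1 - (j - x) := by
      apply σ.injective
      rw [h.hc, e3]; omega
    have e6 : τ (τ x) = n - 1 - (j - x) := by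
      apply τ.injective
      rw [h'.hc, e4]; omega
    apply σ.injective
    rw [hlow (τ x) e2, e6, e5]
  rcases lt_or_ge x (n - (k + 1)) with c4 | c4
  · exact hQ x (Or.inr ⟨c3, c4⟩)
  · have e3 := h.top (i := n - 1 - x) (by omega)
    have e4 := h'.top (i := n - 1 - x) (by omega)
    rw [show n - 1 - (n - 1 - x) = x by omega] at e3 e4
    rw [e3, e4]

end Sit3

theorem H_sq {n : ℕ} {σ : Perm ℕ} (h : σ ∈ H n) : Av (σ * σ : Perm ℕ) := by
  rw [mem_H] at h
  have : σ * σ = σ⁻¹ := by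
    rw [eq_inv_iff_mul_eq_one]; exact h.2.2
  rw [this]
  exact h.2.1.inv

theorem H_inv {n : ℕ} {σ : Perm ℕ} (h : σ ∈ H n) : σ⁻¹ ∈ H n := by
  rw [mem_H] at h ⊢
  refine ⟨h.1.inv, h.2.1.inv, ?_⟩
  have h1 := cube_eq_one_iff.mp h.2.2
  rw [cube_eq_one_iff]
  intro x
  rw [Perm.inv_eq_iff_eq, Perm.inv_eq_iff_eq, Perm.inv_eq_iff_eq, h1]

theorem sit3_of {n k : ℕ} {σ : Perm ℕ} (h : σ ∈ H n) (hk : σ k + 1 = n)
    (hkn : 2 * (k + 1) ≤ n) : Sit3 n k ((σ⁻¹ : Perm ℕ) k) σ := by
  have h' := mem_H.mp h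
  exact ⟨⟨h'.1, h'.2.1, H_sq h, hk, by simp, hkn⟩, cube_eq_one_iff.mp h'.2.2⟩

open Classical in
/-- elements of order three with the maximum at position `k` in the first half, label `≥ l` -/
noncomputable def H1 (n k l : ℕ) : Finset (Perm ℕ) :=
  (H n).filter (fun σ => σ k + 1 = n ∧ 2 * (k + 1) ≤ n ∧ l ≤ (Adm n σ).card)

theorem H1_card (n k r : ℕ) (hr : 1 ≤ r) :
    (H1 n k (r + 1)).card ≤ (A k).card *
      ∑ π ∈ H (n - 3 * (k + 1)), ((Adm (n - 3 * (k + 1)) π).card + 1 - r) := by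
  classical
  have hcod : (A k ×ˢ ((H (n - 3 * (k + 1))).sigma (fun π =>
      (Adm (n - 3 * (k + 1)) π).filter (fun q =>
        r ≤ ((Adm (n - 3 * (k + 1)) π).filter (fun e => e ≤ q)).card)))).card ≤
      (A k).card * ∑ π ∈ H (n - 3 * (k + 1)), ((Adm (n - 3 * (k + 1)) π).card + 1 - r) := by
    rw [card_product, card_sigma]
    apply Nat.mul_le_mul_left
    apply sum_le_sum
    intro π _
    exact rank_card r hr _
  refine le_trans ?_ hcod
  apply card_le_card_of_injOn (fun σ => (lpart (n - 1) k σ,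
    (⟨rem n k ((σ⁻¹ : Perm ℕ) k) σ, n - (σ⁻¹ : Perm ℕ) k - k - 2⟩ : Σ _ : Perm ℕ, ℕ)))
  · intro σ hσ
    rw [mem_coe, H1, mem_filter] at hσ
    obtain ⟨hH, hk, hkn, hl⟩ := hσ
    have h := sit3_of hH hk hkn
    rw [mem_coe, mem_product, mem_sigma, mem_filter]
    have hac := h.adm_card
    refine ⟨?_, h.rem_mem, h.q_mem, ?_⟩
    · rw [mem_A]
      refine ⟨lpart_sup _ _ _, lpart_av ?_ h.hA (by omega)⟩
      rw [show n - 1 + 1 = n by omega]; exact h.hs
    · simp only
      omega
  · intro σ hσ τ hτ hst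
    rw [mem_coe, H1, mem_filter] at hσ hτ
    obtain ⟨hH, hk, hkn, hl⟩ := hσ
    obtain ⟨hH', hk', hkn', hl'⟩ := hτ
    have h := sit3_of hH hk hkn
    have h' := sit3_of hH' hk' hkn'
    simp only [Prod.mk.injEq, Sigma.mk.injEq, heq_eq_eq] at hst
    obtain ⟨e1, e2, e3⟩ := hst
    have hj : (σ⁻¹ : Perm ℕ) k = (τ⁻¹ : Perm ℕ) k := by
      have := h.jk; have := h'.jk; omega
    rw [← hj] at h' e2
    exact h.ext' h' e1 e2

open Classical in
/-- number of elements of `H n` with label at least `l` -/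
noncomputable def M (n l : ℕ) : ℕ := ((H n).filter (fun σ => l ≤ (Adm n σ).card)).card

theorem M_one (n : ℕ) : M n 1 = (H n).card := by
  classical
  unfold M
  rw [filter_true_of_mem]
  intro σ _
  rw [Nat.one_le_iff_ne_zero, Ne, card_eq_zero, ← Ne, ← nonempty_iff_ne_empty]
  exact ⟨0, zero_mem_Adm n σ⟩

/-- For label at least two the maximum is in the first half. -/
theorem first_half_of_label {n k : ℕ} {σ : Perm ℕ} (hs : Sup n σ) (hk : σ k + 1 = n)
    (hl : 2 ≤ (Adm n σ).card) : 2 * (k + 1) ≤ n := by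
  obtain ⟨q, hq, hq0⟩ : ∃ q ∈ Adm n σ, q ≠ 0 := by
    by_contra hc
    push Not at hc
    have : Adm n σ ⊆ {0} := by
      intro q hq
      rw [mem_singleton]
      exact hc q hq
    have := card_le_card this
    rw [card_singleton] at this
    omega
  have h1 := adm_pos hs hq k (by omega) ((hs.lt_iff k).mp (by omega))
  have h2 := (mem_Adm.mp hq).1
  omega

theorem M_le (n r : ℕ) (hr : 1 ≤ r) :
    M (n + 1) (r + 1) ≤ ∑ k ∈ (range (n + 1)).filter (fun k => 3 * (k + 1) ≤ n + 1),
      (H1 (n + 1) k (r + 1)).card := by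
  classical
  unfold M
  refine le_trans (card_le_card ?_) card_biUnion_le
  intro σ hσ
  rw [mem_filter] at hσ
  obtain ⟨hH, hl⟩ := hσ
  have h' := mem_H.mp hH
  obtain ⟨k, hk⟩ : ∃ k, σ k = n := ⟨(σ⁻¹ : Perm ℕ) n, by simp⟩
  have hkn := first_half_of_label h'.1 (by omega : σ k + 1 = n + 1) (by omega)
  have h3 := sit3_of hH (by omega : σ k + 1 = n + 1) hkn
  have h4 := h3.jk
  have h5 := h3.jkk
  rw [mem_biUnion]
  refine ⟨k, ?_, ?_⟩
  · rw [mem_filter, mem_range]; omega
  · rw [H1, mem_filter]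
    exact ⟨hH, by omega, hkn, hl⟩

theorem H_le (n : ℕ) :
    (H (n + 1)).card ≤ (H n).card +
      2 * ∑ k ∈ (range (n + 1)).filter (fun k => 3 * (k + 1) ≤ n + 1),
        (H1 (n + 1) k 2).card := by
  classical
  set U := ((range (n + 1)).filter (fun k => 3 * (k + 1) ≤ n + 1)).biUnion
    (fun k => H1 (n + 1) k 2) with hU
  have hcU : U.card ≤ ∑ k ∈ (range (n + 1)).filter (fun k => 3 * (k + 1) ≤ n + 1),
        (H1 (n + 1) k 2).card := card_biUnion_le
  have hin : ∀ σ ∈ H (n + 1), ∀ k, σ k + 1 = n + 1 → 2 * (k + 1) ≤ n + 1 → σ ∈ U := by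
    intro σ hH k hk hkn
    have h3 := sit3_of hH hk hkn
    have h4 := h3.jk
    have h5 := h3.jkk
    rw [hU, mem_biUnion]
    refine ⟨k, ?_, ?_⟩
    · rw [mem_filter, mem_range]; omega
    · rw [H1, mem_filter]
      refine ⟨hH, hk, hkn, ?_⟩
      -- both 0 and k+1 are admissible
      have : ({0, k + 1} : Finset ℕ) ⊆ Adm (n + 1) σ := by
        intro q hq
        rw [mem_insert, mem_singleton] at hq
        rcases hq with rfl | rfl
        · exact zero_mem_Adm _ _
        · rw [mem_Adm]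
          refine ⟨hkn, ?_⟩
          intro x hx
          have := (h3.f1 (x := x) (by omega)).mp (by omega)
          omega
      calc 2 = ({0, k + 1} : Finset ℕ).card := by rw [card_pair (by omega)]
        _ ≤ _ := card_le_card this
  have hsub : H (n + 1) ⊆ (H n ∪ U) ∪ U.image (fun σ => σ⁻¹) := by
    intro σ hH
    have h' := mem_H.mp hH
    obtain ⟨k, hk⟩ : ∃ k, σ k = n := ⟨(σ⁻¹ : Perm ℕ) n, by simp⟩
    have hkn : k < n + 1 := (h'.1.lt_iff k).mp (by omega)
    rw [mem_union, mem_union]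
    rcases Nat.eq_or_lt_of_le (by omega : k ≤ n) with h4 | h4
    · left; left
      rw [mem_H]
      exact ⟨h'.1.le (by rw [← h4] at hk ⊢; exact hk), h'.2⟩
    · rcases le_or_gt (2 * (k + 1)) (n + 1) with h5 | h5
      · left; right
        exact hin σ hH k (by omega) h5
      · right
        rw [mem_image]
        refine ⟨σ⁻¹, ?_, by simp⟩
        have h6 : ¬ (n ≤ k) := by omega
        have hF := F1 (k := k) h'.1 h'.2.1 (by omega) (x := n) (by omega)
        rw [hF] at h6
        apply hin _ (H_inv hH) (σ n)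
        · simp
        · omega
  have h1 := card_le_card hsub
  have h2 := card_union_le (H n ∪ U) (U.image (fun σ => σ⁻¹))
  have h3 := card_union_le (H n) U
  have h4 := card_image_le (s := U) (f := fun σ : Perm ℕ => σ⁻¹)
  omega

end Pool.Agent.H94.PAv
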