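import Pool.Agent.H94.PAv.CountA

set_option autoImplicit false

namespace Pool.Agent.H94.PAv

open Equiv Finset

/-- block form of an involution with `σ k = n + 1` -/
noncomputable def glueI (n k : ℕ) (τ ι : Perm ℕ) (x : ℕ) : ℕ :=
  if x < k then n + 1 - k + τ x else if x = k then n + 1 else
  if x < n + 1 - k then k + 1 + ι (x - (k + 1)) else
  if x < n + 1 then (τ⁻¹ : Perm ℕ) (x - (n + 1 - k)) else k

section
variable {n k : ℕ} {τ ι : Perm ℕ}

theorem glueI_lt (hk : 2 * k ≤ n) (hτ : Sup k τ) (hι : Sup (n - 2 * k) ι) :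
    ∀ x < n + 2, glueI n k τ ι x < n + 2 := by
  intro x hx
  have h1 : x < k → τ x < k := fun h => hτ.lt h
  have h2 : x - (k + 1) < n - 2 * k → ι (x - (k+1)) < n - 2 * k := fun h => hι.lt h
  have h3 : x - (n + 1 - k) < k → (τ⁻¹ : Perm ℕ) (x - (n + 1 - k)) < k := fun h => hτ.inv.lt h
  unfold glueI
  split_ifs <;> omega

theorem glueI_invol (hk : 2 * k ≤ n) (hτ : Sup k τ) (hι : Sup (n - 2 * k) ι)
    (hinv : ∀ x, ι (ι x) = x) :
    ∀ x < n + 2, glueI n k τ ι (glueI n k τ ι x) = x := by
  intro x hx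
  have h1 : x < k → τ x < k := fun h => hτ.lt h
  have h2 : x - (k + 1) < n - 2 * k → ι (x - (k+1)) < n - 2 * k := fun h => hι.lt h
  have h3 : x - (n + 1 - k) < k → (τ⁻¹ : Perm ℕ) (x - (n + 1 - k)) < k := fun h => hτ.inv.lt h
  rcases lt_trichotomy x k with hc | hc | hc
  · have e : glueI n k τ ι x = n + 1 - k + τ x := by unfold glueI; rw [if_pos hc]
    rw [e]
    unfold glueI
    rw [if_neg (by omega), if_neg (by omega), if_neg (by omega), if_pos (by omega),
      show n + 1 - k + τ x - (n + 1 - k) = τ x by omega]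
    simp
  · have e : glueI n k τ ι x = n + 1 := by unfold glueI; rw [if_neg (by omega), if_pos hc]
    rw [e]
    unfold glueI
    rw [if_neg (by omega), if_neg (by omega), if_neg (by omega), if_neg (by omega)]
    exact hc.symm
  · rcases lt_or_ge x (n + 1 - k) with hd | hd
    · have e : glueI n k τ ι x = k + 1 + ι (x - (k + 1)) := by
        unfold glueI; rw [if_neg (by omega), if_neg (by omega), if_pos hd]
      rw [e]
      unfold glueI
      rw [if_neg (by omega), if_neg (by omega), if_pos (by omega),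
        show k + 1 + ι (x - (k + 1)) - (k + 1) = ι (x - (k+1)) by omega, hinv]
      omega
    · rcases lt_or_ge x (n + 1) with he | he
      · have e : glueI n k τ ι x = (τ⁻¹ : Perm ℕ) (x - (n + 1 - k)) := by
          unfold glueI; rw [if_neg (by omega), if_neg (by omega), if_neg (by omega), if_pos he]
        rw [e]
        unfold glueI
        rw [if_pos (by omega)]
        simp
        omega
      · have e : glueI n k τ ι x = k := by
          unfold glueI
          rw [if_neg (by omega), if_neg (by omega), if_neg (by omega), if_neg (by omega)]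
        rw [e]
        unfold glueI
        rw [if_neg (by omega), if_pos rfl]
        omega

theorem glueI_inj (hk : 2 * k ≤ n) (hτ : Sup k τ) (hι : Sup (n - 2 * k) ι)
    (hinv : ∀ x, ι (ι x) = x) :
    ∀ x < n + 2, ∀ y < n + 2, glueI n k τ ι x = glueI n k τ ι y → x = y := by
  intro x hx y hy h
  rw [← glueI_invol hk hτ hι hinv x hx, h, glueI_invol hk hτ hι hinv y hy]

set_option maxHeartbeats 2000000 in
theorem glueI_av (hk : 2 * k ≤ n) (hτ : Sup k τ) (hι : Sup (n - 2 * k) ι)
    (hinv : ∀ x, ι (ι x) = x) (hτA : Av τ) (hιA : Av ι) :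
    Av (mk (n + 2) (glueI n k τ ι)) := by
  apply av_of_lt (mk_sup _ _)
  intro a b c hab hbc hc
  have hl := glueI_lt hk hτ hι
  have hi := glueI_inj hk hτ hι hinv
  rw [mk_lt hl hi (by omega), mk_lt hl hi (by omega), mk_lt hl hi (by omega)]
  rintro ⟨h1, h2⟩
  have a1 : a < k → τ a < k := fun h => hτ.lt h
  have a2 : a - (k + 1) < n - 2 * k → ι (a - (k+1)) < n - 2 * k := fun h => hι.lt h
  have a3 : a - (n + 1 - k) < k → (τ⁻¹ : Perm ℕ) (a - (n + 1 - k)) < k := fun h => hτ.inv.lt h
  have b1 : b < k → τ b < k := fun h => hτ.lt h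
  have b2 : b - (k + 1) < n - 2 * k → ι (b - (k+1)) < n - 2 * k := fun h => hι.lt h
  have b3 : b - (n + 1 - k) < k → (τ⁻¹ : Perm ℕ) (b - (n + 1 - k)) < k := fun h => hτ.inv.lt h
  have c1 : c < k → τ c < k := fun h => hτ.lt h
  have c2 : c - (k + 1) < n - 2 * k → ι (c - (k+1)) < n - 2 * k := fun h => hι.lt h
  have c3 : c - (n + 1 - k) < k → (τ⁻¹ : Perm ℕ) (c - (n + 1 - k)) < k := fun h => hτ.inv.lt h
  have d1 := hτA a b c hab hbc
  have d2 := hιA (a - (k+1)) (b - (k+1)) (c - (k+1))
  have d3 := hτA.inv (a - (n + 1 - k)) (b - (n + 1 - k)) (c - (n + 1 - k))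
  unfold glueI at h1 h2
  split_ifs at h1 h2 <;> omega

end

/-- middle part of an involution -/
noncomputable def mpart (n k : ℕ) (σ : Perm ℕ) : Perm ℕ :=
  mk (n - 2 * k) (fun x => σ (k + 1 + x) - (k + 1))

theorem mpart_sup (n k : ℕ) (σ : Perm ℕ) : Sup (n - 2 * k) (mpart n k σ) := mk_sup _ _

section
variable {n k : ℕ} {σ : Perm ℕ}

theorem invk (hs : Sup (n + 2) σ) (hA : Av σ) (hinv : ∀ x, σ (σ x) = x) (hk : σ k = n + 1)
    (hne : k ≠ n + 1) : 2 * k ≤ n := by
  have hkn : k < n + 2 := (hs.lt_iff k).mp (by omega)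
  by_contra hc
  have h1 := f1' (n := n + 1) hs hA hk (x := n + 1) (by omega)
  have h2 : σ (n + 1) = k := by rw [← hk, hinv]
  rw [h2] at h1
  omega

theorem inv_mid (hs : Sup (n + 2) σ) (hA : Av σ) (hinv : ∀ x, σ (σ x) = x) (hk : σ k = n + 1)
    {x : ℕ} (hx1 : k < x) (hx2 : x < n + 1 - k) : k < σ x ∧ σ x < n + 1 - k := by
  have h1 := f1' (n := n + 1) hs hA hk (x := x) (by omega)
  have h2 := f1' (n := n + 1) hs hA hk (x := σ x) (hs.lt (by omega))
  rw [hinv] at h2
  omega

theorem mpart_apply (hs : Sup (n + 2) σ) (hA : Av σ) (hinv : ∀ x, σ (σ x) = x)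
    (hk : σ k = n + 1) {x : ℕ} (hx : x < n - 2 * k) :
    mpart n k σ x = σ (k + 1 + x) - (k + 1) := by
  unfold mpart
  apply mk_lt _ _ hx
  · intro y hy
    have := inv_mid hs hA hinv hk (x := k + 1 + y) (by omega) (by omega)
    omega
  · intro y hy z hz h
    have h1 := inv_mid hs hA hinv hk (x := k + 1 + y) (by omega) (by omega)
    have h2 := inv_mid hs hA hinv hk (x := k + 1 + z) (by omega) (by omega)
    have : σ (k + 1 + y) = σ (k + 1 + z) := by omega
    have := σ.injective this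
    omega

theorem mpart_av (hs : Sup (n + 2) σ) (hA : Av σ) (hinv : ∀ x, σ (σ x) = x)
    (hk : σ k = n + 1) : Av (mpart n k σ) := by
  apply av_of_lt (mpart_sup _ _ _)
  intro a b c hab hbc hc
  rw [mpart_apply hs hA hinv hk (by omega), mpart_apply hs hA hinv hk (by omega),
    mpart_apply hs hA hinv hk (by omega)]
  have h1 := inv_mid hs hA hinv hk (x := k + 1 + a) (by omega) (by omega)
  have h2 := inv_mid hs hA hinv hk (x := k + 1 + b) (by omega) (by omega)
  have h3 := inv_mid hs hA hinv hk (x := k + 1 + c) (by omega) (by omega)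
  have := hA (k + 1 + a) (k + 1 + b) (k + 1 + c) (by omega) (by omega)
  omega

theorem mpart_inv (hs : Sup (n + 2) σ) (hA : Av σ) (hinv : ∀ x, σ (σ x) = x)
    (hk : σ k = n + 1) : mpart n k σ * mpart n k σ = 1 := by
  rw [sq_eq_one_iff]
  intro x
  rcases lt_or_ge x (n - 2 * k) with hx | hx
  · have h1 := inv_mid hs hA hinv hk (x := k + 1 + x) (by omega) (by omega)
    rw [mpart_apply hs hA hinv hk hx, mpart_apply hs hA hinv hk (by omega),
      show k + 1 + (σ (k + 1 + x) - (k + 1)) = σ (k + 1 + x) by omega, hinv]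
    omega
  · rw [mpart_sup n k σ x hx, mpart_sup n k σ x hx]

end

theorem I_succ (n : ℕ) : (I (n + 2)).card = (I (n + 1)).card +
    ∑ k ∈ range (n / 2 + 1), (A k).card * (I (n - 2 * k)).card := by
  classical
  have hsplit : (I (n + 2)).card = ((I (n + 2)).filter (fun σ => σ (n + 1) = n + 1)).card +
      ((I (n + 2)).filter (fun σ => ¬ σ (n + 1) = n + 1)).card := by
    rw [card_filter_add_card_filter_not]
  have h1 : (I (n + 2)).filter (fun σ => σ (n + 1) = n + 1) = I (n + 1) := by
    ext σ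
    rw [mem_filter, mem_I, mem_I]
    constructor
    · rintro ⟨⟨h1, h2, h3⟩, h4⟩
      exact ⟨h1.le h4, h2, h3⟩
    · rintro ⟨h1, h2, h3⟩
      exact ⟨⟨h1.mono (by omega), h2, h3⟩, h1 _ le_rfl⟩
  have h2 : ∑ k ∈ range (n / 2 + 1), (A k).card * (I (n - 2 * k)).card =
      ((range (n / 2 + 1)).sigma (fun k => A k ×ˢ I (n - 2 * k))).card := by
    rw [card_sigma]
    apply sum_congr rfl
    intro k _
    rw [card_product]
  rw [hsplit, h1, h2]
  congr 1
  apply card_nbij' (i := fun σ => (⟨σ (n + 1), (lpart (n + 1) (σ (n + 1)) σ,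
      mpart n (σ (n + 1)) σ)⟩ : Σ _ : ℕ, Perm ℕ × Perm ℕ))
    (j := fun p => mk (n + 2) (glueI n p.1 p.2.1 p.2.2))
  · intro σ hσ
    rw [mem_coe, mem_filter, mem_I] at hσ
    obtain ⟨⟨hs, hA, hi⟩, hne⟩ := hσ
    have hinv := sq_eq_one_iff.mp hi
    obtain ⟨k, hk0⟩ : ∃ k, σ (n + 1) = k := ⟨_, rfl⟩
    have hk : σ k = n + 1 := by rw [← hk0, hinv]
    have hkn := invk hs hA hinv hk (by omega)
    simp only [hk0]
    simp only [coe_sigma, Set.mem_sigma_iff, mem_coe, mem_range, mem_product, mem_A, mem_I]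
    exact ⟨by omega, ⟨lpart_sup _ _ _, lpart_av hs hA hk⟩,
      ⟨mpart_sup _ _ _, mpart_av hs hA hinv hk, mpart_inv hs hA hinv hk⟩⟩
  · rintro ⟨k, τ, ι⟩ hp
    simp only [coe_sigma, Set.mem_sigma_iff, mem_coe, mem_range, mem_product, mem_A, mem_I] at hp
    obtain ⟨hk, ⟨hτ, hτA⟩, ⟨hι, hιA, hιi⟩⟩ := hp
    have hinv := sq_eq_one_iff.mp hιi
    have hk' : 2 * k ≤ n := by omega
    have hl := glueI_lt hk' hτ hι
    have hi := glueI_inj hk' hτ hι hinv
    rw [mem_coe, mem_filter, mem_I]
    refine ⟨⟨mk_sup _ _, glueI_av hk' hτ hι hinv hτA hιA, ?_⟩, ?_⟩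
    · rw [sq_eq_one_iff]
      intro x
      rcases lt_or_ge x (n + 2) with hx | hx
      · rw [mk_lt hl hi hx, mk_lt hl hi (hl x hx)]
        exact glueI_invol hk' hτ hι hinv x hx
      · rw [mk_sup _ _ x hx, mk_sup _ _ x hx]
    · simp only
      rw [mk_lt hl hi (by omega)]
      unfold glueI
      rw [if_neg (by omega), if_neg (by omega), if_neg (by omega), if_neg (by omega)]
      omega
  · intro σ hσ
    rw [mem_coe, mem_filter, mem_I] at hσ
    obtain ⟨⟨hs, hA, hi⟩, hne⟩ := hσ
    have hinv := sq_eq_one_iff.mp hi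
    obtain ⟨k, hk0⟩ : ∃ k, σ (n + 1) = k := ⟨_, rfl⟩
    have hk : σ k = n + 1 := by rw [← hk0, hinv]
    have hkn := invk hs hA hinv hk (by omega)
    simp only [hk0]
    have hmi := sq_eq_one_iff.mp (mpart_inv hs hA hinv hk)
    have hl := glueI_lt hkn (lpart_sup (n+1) k σ) (mpart_sup n k σ)
    have hi := glueI_inj hkn (lpart_sup (n+1) k σ) (mpart_sup n k σ) hmi
    apply perm_ext_lt (mk_sup _ _) hs
    intro x hx
    rw [mk_lt hl hi hx]
    unfold glueI
    split_ifs with h1 h2 h3 h4
    · rw [lpart_apply hs hA hk h1]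
      have := (f1' (n := n + 1) hs hA hk hx).mp (by omega)
      omega
    · rw [h2, hk]
    · rw [mpart_apply hs hA hinv hk (by omega), show k + 1 + (x - (k + 1)) = x by omega]
      have := inv_mid hs hA hinv hk (x := x) (by omega) (by omega)
      omega
    · rw [Perm.inv_eq_iff_eq]
      -- x in the fourth block : σ x < k
      have h5 : σ x < k := by
        have h6 := f1' (n := n + 1) hs hA hk (x := σ x) (hs.lt hx)
        rw [hinv] at h6
        have h7 := h6.mpr (by omega)
        rcases Nat.eq_or_lt_of_le h7 with h8 | h8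
        · have : x = n + 1 := by
            apply σ.injective
            rw [h8, hk0]
          omega
        · exact h8
      rw [lpart_apply hs hA hk h5, hinv]
    · have : x = n + 1 := by omega
      rw [this, hk0]
  · rintro ⟨k, τ, ι⟩ hp
    simp only [coe_sigma, Set.mem_sigma_iff, mem_coe, mem_range, mem_product, mem_A, mem_I] at hp
    obtain ⟨hk, ⟨hτ, hτA⟩, ⟨hι, hιA, hιi⟩⟩ := hp
    have hinv := sq_eq_one_iff.mp hιi
    have hk' : 2 * k ≤ n := by omega
    have hl := glueI_lt hk' hτ hι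
    have hi := glueI_inj hk' hτ hι hinv
    have hlast : mk (n + 2) (glueI n k τ ι) (n + 1) = k := by
      rw [mk_lt hl hi (by omega)]
      unfold glueI
      rw [if_neg (by omega), if_neg (by omega), if_neg (by omega), if_neg (by omega)]
    have hs : Sup (n + 2) (mk (n + 2) (glueI n k τ ι)) := mk_sup _ _
    have hA := glueI_av hk' hτ hι hinv hτA hιA
    have hkk : mk (n + 2) (glueI n k τ ι) k = n + 1 := by
      rw [mk_lt hl hi (by omega)]
      unfold glueI
      rw [if_neg (by omega), if_pos rfl]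
    have hinv' : ∀ x, mk (n + 2) (glueI n k τ ι) (mk (n + 2) (glueI n k τ ι) x) = x := by
      intro x
      rcases lt_or_ge x (n + 2) with hx | hx
      · rw [mk_lt hl hi hx, mk_lt hl hi (hl x hx)]
        exact glueI_invol hk' hτ hι hinv x hx
      · rw [mk_sup _ _ x hx, mk_sup _ _ x hx]
    simp only [hlast]
    congr 1
    apply Prod.ext
    · apply perm_ext_lt (lpart_sup _ _ _) hτ
      intro x hx
      rw [lpart_apply hs hA hkk hx, mk_lt hl hi (by omega)]
      unfold glueI
      rw [if_pos hx]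
      omega
    · apply perm_ext_lt (mpart_sup _ _ _) hι
      intro x hx
      rw [mpart_apply hs hA hinv' hkk hx, mk_lt hl hi (by omega)]
      unfold glueI
      rw [if_neg (by omega), if_neg (by omega), if_pos (by omega),
        show k + 1 + x - (k + 1) = x by omega]
      omega

end Pool.Agent.H94.PAv
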