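import Pool.Agent.H94.PAv.CountI

set_option autoImplicit false

namespace Pool.Agent.H94.PAv

open Equiv Finset

noncomputable def shellF (K n : ℕ) (J : Perm ℕ) (x : ℕ) : ℕ :=
  if x < K then n - K + x else
  if x < n - 2 * K then K + J (x - K) else
  if x < n - K then x - (n - 2 * K) else x - K

noncomputable def shell (K n : ℕ) (J : Perm ℕ) : Perm ℕ := mk n (shellF K n J)

theorem shell_sup (K n : ℕ) (J : Perm ℕ) : Sup n (shell K n J) := mk_sup _ _

section
variable {K n : ℕ} {J : Perm ℕ}

theorem shellF_lt (h : 3 * K ≤ n) (hJ : Sup (n - 3 * K) J) :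
    ∀ x < n, shellF K n J x < n := by
  intro x hx
  have h1 : x - K < n - 3 * K → J (x - K) < n - 3 * K := fun h => hJ.lt h
  unfold shellF
  split_ifs <;> omega

theorem shellF_inj (h : 3 * K ≤ n) (hJ : Sup (n - 3 * K) J) :
    ∀ x < n, ∀ y < n, shellF K n J x = shellF K n J y → x = y := by
  intro x hx y hy hxy
  have h1 : x - K < n - 3 * K → J (x - K) < n - 3 * K := fun h => hJ.lt h
  have h2 : y - K < n - 3 * K → J (y - K) < n - 3 * K := fun h => hJ.lt h
  have h3 : J (x - K) = J (y - K) → x - K = y - K := fun h => J.injective h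
  unfold shellF at hxy
  split_ifs at hxy <;> omega

theorem shell_apply (h : 3 * K ≤ n) (hJ : Sup (n - 3 * K) J) {x : ℕ} (hx : x < n) :
    shell K n J x = shellF K n J x := mk_lt (shellF_lt h hJ) (shellF_inj h hJ) hx

set_option maxHeartbeats 2000000 in
theorem shell_av (h : 3 * K ≤ n) (hJ : Sup (n - 3 * K) J) (hA : Av J) : Av (shell K n J) := by
  apply av_of_lt (shell_sup _ _ _)
  intro a b c hab hbc hc
  rw [shell_apply h hJ (by omega), shell_apply h hJ (by omega), shell_apply h hJ (by omega)]
  rintro ⟨h1, h2⟩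
  have a1 : a - K < n - 3 * K → J (a - K) < n - 3 * K := fun h => hJ.lt h
  have b1 : b - K < n - 3 * K → J (b - K) < n - 3 * K := fun h => hJ.lt h
  have c1 : c - K < n - 3 * K → J (c - K) < n - 3 * K := fun h => hJ.lt h
  have d2 := hA (a - K) (b - K) (c - K)
  unfold shellF at h1 h2
  split_ifs at h1 h2 <;> omega

theorem shell_sq_aux (h : 3 * K ≤ n) (hJ : Sup (n - 3 * K) J) :
    shell K n (J * J)⁻¹ * (shell K n J * shell K n J) = 1 := by
  have hJ2 : Sup (n - 3 * K) (J * J)⁻¹ := (hJ.mul hJ).inv
  ext x
  simp only [Perm.mul_apply, Perm.one_apply]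
  rcases lt_or_ge x n with hx | hx
  · have hx2 : shell K n J x < n := (shell_sup K n J).lt hx
    have hx3 : shell K n J (shell K n J x) < n := (shell_sup K n J).lt hx2
    rw [shell_apply h hJ2 hx3, shell_apply h hJ hx2, shell_apply h hJ hx]
    have e1 : x - K < n - 3 * K → J (x - K) < n - 3 * K := fun h => hJ.lt h
    rcases lt_or_ge x K with c1 | c1
    · have e : shellF K n J x = n - K + x := by unfold shellF; rw [if_pos c1]
      rw [e]
      have e' : shellF K n J (n - K + x) = n - 2 * K + x := by
        unfold shellF; rw [if_neg (by omega), if_neg (by omega), if_neg (by omega)]; omega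
      rw [e']
      unfold shellF
      rw [if_neg (by omega), if_neg (by omega), if_pos (by omega)]; omega
    · rcases lt_or_ge x (n - 2 * K) with c2 | c2
      · have e : shellF K n J x = K + J (x - K) := by
          unfold shellF; rw [if_neg (by omega), if_pos c2]
        rw [e]
        have h5 : J (x - K) < n - 3 * K := e1 (by omega)
        have h6 : J (J (x - K)) < n - 3 * K := hJ.lt h5
        have e' : shellF K n J (K + J (x - K)) = K + J (J (x - K)) := by
          unfold shellF
          rw [if_neg (by omega), if_pos (by omega), show K + J (x - K) - K = J (x - K) by omega]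
        rw [e']
        unfold shellF
        rw [if_neg (by omega), if_pos (by omega),
          show K + J (J (x - K)) - K = J (J (x - K)) by omega]
        have : ((J * J)⁻¹ : Perm ℕ) (J (J (x - K))) = x - K := by
          rw [Perm.inv_eq_iff_eq]; rfl
        rw [this]; omega
      · rcases lt_or_ge x (n - K) with c3 | c3
        · have e : shellF K n J x = x - (n - 2 * K) := by
            unfold shellF; rw [if_neg (by omega), if_neg (by omega), if_pos c3]
          rw [e]
          have e' : shellF K n J (x - (n - 2 * K)) = x + K := by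
            unfold shellF; rw [if_pos (by omega)]; omega
          rw [e']
          unfold shellF
          rw [if_neg (by omega), if_neg (by omega), if_neg (by omega)]; omega
        · have e : shellF K n J x = x - K := by
            unfold shellF; rw [if_neg (by omega), if_neg (by omega), if_neg (by omega)]
          rw [e]
          have e' : shellF K n J (x - K) = x - (n - K) := by
            unfold shellF
            rw [if_neg (by omega), if_neg (by omega), if_pos (by omega)]; omega
          rw [e']
          unfold shellF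
          rw [if_pos (by omega)]; omega
  · rw [shell_sup K n J x hx, shell_sup K n J x hx, shell_sup K n _ x hx]

theorem shell_sq (h : 3 * K ≤ n) (hJ : Sup (n - 3 * K) J) :
    shell K n J * shell K n J = (shell K n (J * J)⁻¹)⁻¹ :=
  (inv_eq_of_mul_eq_one_right (shell_sq_aux h hJ)).symm

theorem shell_mem (h : 3 * K ≤ n) (hJ : J ∈ S (n - 3 * K)) : shell K n J ∈ S n := by
  rw [mem_S] at hJ ⊢
  obtain ⟨h1, h2, h3⟩ := hJ
  refine ⟨shell_sup _ _ _, shell_av h h1 h2, ?_⟩
  rw [shell_sq h h1]
  exact (shell_av h (h1.mul h1).inv h3.inv).inv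

theorem S_inv {σ : Perm ℕ} (h : σ ∈ S n) : σ⁻¹ ∈ S n := by
  rw [mem_S] at h ⊢
  refine ⟨h.1.inv, h.2.1.inv, ?_⟩
  rw [← mul_inv_rev]
  exact h.2.2.inv

theorem shell_injOn (h : 3 * K ≤ n) :
    Set.InjOn (shell K n) (S (n - 3 * K) : Set (Perm ℕ)) := by
  intro J hJ J' hJ' hh
  rw [mem_coe, mem_S] at hJ hJ'
  apply perm_ext_lt hJ.1 hJ'.1
  intro x hx
  have h1 : shell K n J (K + x) = shell K n J' (K + x) := by rw [hh]
  rw [shell_apply h hJ.1 (by omega), shell_apply h hJ'.1 (by omega)] at h1
  unfold shellF at h1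
  rw [if_neg (by omega), if_pos (by omega), if_neg (by omega), if_pos (by omega),
    show K + x - K = x by omega] at h1
  omega

end

theorem S_rec (n : ℕ) : (S (n + 5)).card + 2 * (S (n + 3)).card + 2 * (S n).card +
    ((I (n + 6)).card - (I (n + 5)).card) ≤ (S (n + 6)).card := by
  classical
  let g : Perm ℕ → ℕ := fun σ => if σ (n + 5) = n + 5 then 1 else
    if σ (σ (n + 5)) = n + 5 then 6 else if σ (n + 5) = 0 then 3 else
    if σ (n + 5) = 1 then 5 else if σ (σ (n + 5)) = 0 then 2 else
    if σ (σ (n + 5)) = 1 then 4 else 0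
  have hg : ∀ σ ∈ S (n + 6), g σ ∈ range 7 := by
    intro σ _
    rw [mem_range]
    simp only [g]
    split_ifs <;> omega
  have hcard := card_eq_sum_card_fiberwise hg
  rw [hcard]
  rw [sum_range_succ, sum_range_succ, sum_range_succ, sum_range_succ, sum_range_succ,
    sum_range_succ, sum_range_succ, sum_range_zero]
  -- values for the shells
  have v1 : ∀ J : Perm ℕ, Sup (n + 6 - 3 * 1) J → shell 1 (n + 6) J (n + 5) = n + 4 ∧
      shell 1 (n + 6) J (n + 4) = 0 ∧ shell 1 (n + 6) J 0 = n + 5 := by
    intro J hJ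
    rw [shell_apply (by omega) hJ (by omega), shell_apply (by omega) hJ (by omega),
      shell_apply (by omega) hJ (by omega)]
    unfold shellF
    refine ⟨?_, ?_, ?_⟩
    · rw [if_neg (by omega), if_neg (by omega), if_neg (by omega)]; omega
    · rw [if_neg (by omega), if_neg (by omega), if_pos (by omega)]; omega
    · rw [if_pos (by omega)]; omega
  have v2 : ∀ J : Perm ℕ, Sup (n + 6 - 3 * 2) J → shell 2 (n + 6) J (n + 5) = n + 3 ∧
      shell 2 (n + 6) J (n + 3) = 1 ∧ shell 2 (n + 6) J 1 = n + 5 := by
    intro J hJ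
    rw [shell_apply (by omega) hJ (by omega), shell_apply (by omega) hJ (by omega),
      shell_apply (by omega) hJ (by omega)]
    unfold shellF
    refine ⟨?_, ?_, ?_⟩
    · rw [if_neg (by omega), if_neg (by omega), if_neg (by omega)]; omega
    · rw [if_neg (by omega), if_neg (by omega), if_pos (by omega)]; omega
    · rw [if_pos (by omega)]; omega
  have x1 : (S (n + 5)).card ≤ ((S (n + 6)).filter (fun σ => g σ = 1)).card := by
    apply card_le_card
    intro σ hσ
    rw [mem_S] at hσ
    rw [mem_filter, mem_S]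
    refine ⟨⟨hσ.1.mono (by omega), hσ.2⟩, ?_⟩
    simp only [g]
    rw [if_pos (hσ.1 _ le_rfl)]
  have x2 : (S (n + 3)).card ≤ ((S (n + 6)).filter (fun σ => g σ = 2)).card := by
    apply card_le_card_of_injOn (shell 1 (n + 6))
    · intro J hJ
      rw [mem_coe] at hJ
      rw [mem_coe, mem_filter]
      have hJ' : J ∈ S (n + 6 - 3 * 1) := hJ
      refine ⟨shell_mem (by omega) hJ', ?_⟩
      obtain ⟨e1, e2, e3⟩ := v1 J (mem_S.mp hJ').1
      simp only [g]
      rw [e1, e2, if_neg (by omega), if_neg (by omega), if_neg (by omega), if_neg (by omega),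
        if_pos rfl]
    · exact shell_injOn (n := n + 6) (K := 1) (by omega)
  have x3 : (S (n + 3)).card ≤ ((S (n + 6)).filter (fun σ => g σ = 3)).card := by
    apply card_le_card_of_injOn (fun J => (shell 1 (n + 6) J)⁻¹)
    · intro J hJ
      rw [mem_coe] at hJ
      rw [mem_coe, mem_filter]
      have hJ' : J ∈ S (n + 6 - 3 * 1) := hJ
      refine ⟨S_inv (shell_mem (by omega) hJ'), ?_⟩
      obtain ⟨e1, e2, e3⟩ := v1 J (mem_S.mp hJ').1
      have e4 : (shell 1 (n + 6) J)⁻¹ (n + 5) = 0 := by rw [Perm.inv_eq_iff_eq]; exact e3.symm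
      have e5 : (shell 1 (n + 6) J)⁻¹ 0 = n + 4 := by rw [Perm.inv_eq_iff_eq]; exact e2.symm
      simp only [g]
      rw [e4, e5, if_neg (by omega), if_neg (by omega), if_pos rfl]
    · intro J hJ J' hJ' hh
      exact shell_injOn (n := n + 6) (K := 1) (by omega) hJ hJ' (inv_injective hh)
  have x4 : (S n).card ≤ ((S (n + 6)).filter (fun σ => g σ = 4)).card := by
    apply card_le_card_of_injOn (shell 2 (n + 6))
    · intro J hJ
      rw [mem_coe] at hJ
      rw [mem_coe, mem_filter]
      have hJ' : J ∈ S (n + 6 - 3 * 2) := hJ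
      refine ⟨shell_mem (by omega) hJ', ?_⟩
      obtain ⟨e1, e2, e3⟩ := v2 J (mem_S.mp hJ').1
      simp only [g]
      rw [e1, e2, if_neg (by omega), if_neg (by omega), if_neg (by omega), if_neg (by omega),
        if_neg (by omega), if_pos rfl]
    · exact shell_injOn (n := n + 6) (K := 2) (by omega)
  have x5 : (S n).card ≤ ((S (n + 6)).filter (fun σ => g σ = 5)).card := by
    apply card_le_card_of_injOn (fun J => (shell 2 (n + 6) J)⁻¹)
    · intro J hJ
      rw [mem_coe] at hJ
      rw [mem_coe, mem_filter]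
      have hJ' : J ∈ S (n + 6 - 3 * 2) := hJ
      refine ⟨S_inv (shell_mem (by omega) hJ'), ?_⟩
      obtain ⟨e1, e2, e3⟩ := v2 J (mem_S.mp hJ').1
      have e4 : (shell 2 (n + 6) J)⁻¹ (n + 5) = 1 := by rw [Perm.inv_eq_iff_eq]; exact e3.symm
      have e5 : (shell 2 (n + 6) J)⁻¹ 1 = n + 3 := by rw [Perm.inv_eq_iff_eq]; exact e2.symm
      simp only [g]
      rw [e4, e5, if_neg (by omega), if_neg (by omega), if_neg (by omega), if_pos rfl]
    · intro J hJ J' hJ' hh
      exact shell_injOn (n := n + 6) (K := 2) (by omega) hJ hJ' (inv_injective hh)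
  have x6 : (I (n + 6)).card - (I (n + 5)).card ≤
      ((S (n + 6)).filter (fun σ => g σ = 6)).card := by
    have h1 : (I (n + 6)).card = ((I (n + 6)).filter (fun σ => σ (n + 5) = n + 5)).card +
        ((I (n + 6)).filter (fun σ => ¬ σ (n + 5) = n + 5)).card := by
      rw [card_filter_add_card_filter_not]
    have h2 : ((I (n + 6)).filter (fun σ => σ (n + 5) = n + 5)).card ≤ (I (n + 5)).card := by
      apply card_le_card
      intro σ hσ
      rw [mem_filter, mem_I] at hσ
      rw [mem_I]
      exact ⟨hσ.1.1.le hσ.2, hσ.1.2⟩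
    have h3 : ((I (n + 6)).filter (fun σ => ¬ σ (n + 5) = n + 5)).card ≤
        ((S (n + 6)).filter (fun σ => g σ = 6)).card := by
      apply card_le_card
      intro σ hσ
      rw [mem_filter, mem_I] at hσ
      obtain ⟨⟨h1, h2, h3⟩, h4⟩ := hσ
      rw [mem_filter, mem_S]
      refine ⟨⟨h1, h2, ?_⟩, ?_⟩
      · rw [h3]
        intro i j k hij hjk
        simp only [Perm.one_apply]
        omega
      · simp only [g]
        rw [if_neg h4, if_pos (sq_eq_one_iff.mp h3 _)]
    omega
  omega

end Pool.Agent.H94.PAv
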