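import Pool.Agent.H94.PAv.CountS
import Pool.Agent.H94.PAv.CountI

set_option autoImplicit false

namespace Pool.Agent.H94.PAv

open Equiv Finset

theorem cat_cb (n : ℕ) : (n + 1) * catalan n = n.centralBinom := succ_mul_catalan_eq_centralBinom n

/-- convolution of Catalan numbers with central binomial coefficients -/
theorem cat_conv (m : ℕ) :
    2 * ∑ k ∈ range (m + 1), catalan k * (m - k).centralBinom = (m + 1).centralBinom := by
  have h1 : ∑ k ∈ range (m + 1), catalan k * (m - k).centralBinom =
      ∑ k ∈ range (m + 1), (m - k + 1) * (catalan k * catalan (m - k)) := by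
    apply sum_congr rfl
    intro k _
    rw [← cat_cb]; ring
  have h2 : ∑ k ∈ range (m + 1), catalan k * (m - k).centralBinom =
      ∑ k ∈ range (m + 1), (k + 1) * (catalan k * catalan (m - k)) := by
    rw [← sum_range_reflect]
    apply sum_congr rfl
    intro k hk
    rw [mem_range] at hk
    rw [show m + 1 - 1 - k = m - k by omega, show m - (m - k) = k by omega, ← cat_cb k]; ring
  have h3 : catalan (m + 1) = ∑ k ∈ range (m + 1), catalan k * catalan (m - k) := by
    rw [catalan_succ, ← Finset.sum_range (f := fun i => catalan i * catalan (m - i))]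
  rw [two_mul]
  nth_rw 1 [h1]
  rw [h2, ← sum_add_distrib, ← cat_cb, h3, mul_sum]
  apply sum_congr rfl
  intro k hk
  rw [mem_range] at hk
  obtain ⟨j, rfl⟩ : ∃ j, m = k + j := ⟨m - k, by omega⟩
  rw [show k + j - k = j by omega]
  ring

/-- `C(n, n/2)` -/
def ii (n : ℕ) : ℕ := n.choose (n / 2)

theorem ii_even (m : ℕ) : ii (2 * m) = m.centralBinom := by
  unfold ii
  rw [show 2 * m / 2 = m by omega, Nat.centralBinom_eq_two_mul_choose]

theorem ii_odd (m : ℕ) : 2 * ii (2 * m + 1) = (m + 1).centralBinom := by
  unfold ii
  rw [show (2 * m + 1) / 2 = m by omega, Nat.centralBinom_eq_two_mul_choose,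
    show 2 * (m + 1) = (2 * m + 1) + 1 by ring, Nat.choose_succ_succ,
    Nat.choose_symm_half]
  ring

theorem cb_succ (m : ℕ) : (m + 1).centralBinom + 2 * catalan m = 4 * m.centralBinom := by
  have h1 := Nat.succ_mul_centralBinom_succ m
  have h2 := cat_cb m
  have h3 : (m + 1) * ((m + 1).centralBinom + 2 * catalan m) = (m + 1) * (4 * m.centralBinom) := by
    rw [mul_add, h1, ← h2]; ring
  exact Nat.eq_of_mul_eq_mul_left (by omega) h3

theorem ii_rec (n : ℕ) : ii (n + 2) = ii (n + 1) +
    ∑ k ∈ range (n / 2 + 1), catalan k * ii (n - 2 * k) := by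
  rcases Nat.even_or_odd' n with ⟨m, rfl | rfl⟩
  · rw [show 2 * m / 2 = m by omega, show 2 * m + 2 = 2 * (m + 1) by ring, ii_even]
    have h1 : ∑ k ∈ range (m + 1), catalan k * ii (2 * m - 2 * k) =
        ∑ k ∈ range (m + 1), catalan k * (m - k).centralBinom := by
      apply sum_congr rfl
      intro k _
      rw [show 2 * m - 2 * k = 2 * (m - k) by omega, ii_even]
    rw [h1]
    have h2 := ii_odd m
    have h3 := cat_conv m
    omega
  · rw [show (2 * m + 1) / 2 = m by omega, show 2 * m + 1 + 2 = 2 * (m + 1) + 1 by ring,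
      show 2 * m + 1 + 1 = 2 * (m + 1) by ring, ii_even]
    have h1 : 2 * ∑ k ∈ range (m + 1), catalan k * ii (2 * m + 1 - 2 * k) =
        ∑ k ∈ range (m + 1), catalan k * (m + 1 - k).centralBinom := by
      rw [mul_sum]
      apply sum_congr rfl
      intro k hk
      rw [mem_range] at hk
      have := ii_odd (m - k)
      rw [show 2 * m + 1 - 2 * k = 2 * (m - k) + 1 by omega,
        show m + 1 - k = m - k + 1 by omega, ← this]
      ring
    have h2 := ii_odd (m + 1)
    have h3 := cat_conv (m + 1)
    rw [sum_range_succ, show m + 1 - (m + 1) = 0 by omega, Nat.centralBinom_zero] at h3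
    have h4 := cb_succ (m + 1)
    omega

theorem I_card (n : ℕ) : (I n).card = ii n := by
  induction n using Nat.strong_induction_on with
  | _ n ih =>
    have hone : ∀ m, m ≤ 1 → (I m).card = 1 := by
      intro m hm
      rw [card_eq_one]
      refine ⟨1, ?_⟩
      ext σ
      rw [mem_I, mem_singleton]
      constructor
      · rintro ⟨hs, _, _⟩
        apply perm_ext_lt (hs.mono hm) (Sup.one 1)
        intro x hx
        have hx0 : x = 0 := by omega
        subst hx0
        have := (hs.mono hm).lt (x := 0) (by omega)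
        simp only [Perm.one_apply]
        omega
      · rintro rfl
        refine ⟨Sup.one m, ?_, by simp⟩
        intro i j k hij hjk
        simp only [Perm.one_apply]
        omega
    rcases n with _ | _ | n
    · rw [hone 0 (by omega)]; rfl
    · rw [hone 1 (by omega)]; rfl
    · rw [I_succ, ii_rec, ih (n + 1) (by omega)]
      congr 1
      apply sum_congr rfl
      intro k hk
      rw [A_card, ih (n - 2 * k) (by omega)]

theorem ii_succ_le (n : ℕ) : ii (n + 1) ≤ 2 * ii n := by
  unfold ii
  rcases Nat.eq_zero_or_pos ((n + 1) / 2) with h | h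
  · rw [h]
    have : n = 0 := by omega
    subst this
    decide
  · obtain ⟨r, hr⟩ : ∃ r, (n + 1) / 2 = r + 1 := ⟨(n + 1) / 2 - 1, by omega⟩
    rw [hr, Nat.choose_succ_succ']
    have h1 := Nat.choose_le_middle r n
    have h2 := Nat.choose_le_middle (r + 1) n
    omega

theorem two_pow_le (n : ℕ) : 2 ^ n ≤ (n + 1) * ii n := by
  unfold ii
  rw [← Nat.sum_range_choose]
  calc ∑ m ∈ range (n + 1), n.choose m ≤ ∑ m ∈ range (n + 1), n.choose (n / 2) :=
        sum_le_sum (fun m _ => Nat.choose_le_middle m n)
    _ = _ := by rw [sum_const, card_range, smul_eq_mul]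

theorem I_le_S (n : ℕ) : ii n ≤ (S n).card := by
  rw [← I_card]
  apply card_le_card
  intro σ hσ
  rw [mem_I] at hσ
  rw [mem_S]
  refine ⟨hσ.1, hσ.2.1, ?_⟩
  rw [hσ.2.2]
  intro i j k hij hjk
  simp only [Perm.one_apply]
  omega

theorem S_rec' (n : ℕ) : (S (n + 5)).card + 2 * (S (n + 3)).card + 2 * (S n).card +
    (ii (n + 6) - ii (n + 5)) ≤ (S (n + 6)).card := by
  have := S_rec n
  rw [I_card, I_card] at this
  exact this

/-- `5 |S_n| ≥ 11 C(n, n/2)` for `n ≥ 13` -/
theorem S_lower (n : ℕ) : 11 * ii (n + 13) ≤ 5 * (S (n + 13)).card := by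
  induction n using Nat.strong_induction_on with
  | _ n ih =>
    rcases lt_or_ge n 6 with hn | hn
    · have a0 := I_le_S 0
      have a1 := I_le_S 1
      have a2 := I_le_S 2
      have a3 := I_le_S 3
      have a4 := I_le_S 4
      have a5 := I_le_S 5
      have b0 := S_rec' 0
      have b1 := S_rec' 1
      have b2 := S_rec' 2
      have b3 := S_rec' 3
      have b4 := S_rec' 4
      have b5 := S_rec' 5
      have b6 := S_rec' 6
      have b7 := S_rec' 7
      have b8 := S_rec' 8
      have b9 := S_rec' 9
      have b10 := S_rec' 10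
      have b11 := S_rec' 11
      have b12 := S_rec' 12
      have i0 : ii 0 = 1 := by decide
      have i1 : ii 1 = 1 := by decide
      have i2 : ii 2 = 2 := by decide
      have i3 : ii 3 = 3 := by decide
      have i4 : ii 4 = 6 := by decide
      have i5 : ii 5 = 10 := by decide
      have i6 : ii 6 = 20 := by decide
      have i7 : ii 7 = 35 := by decide
      have i8 : ii 8 = 70 := by decide
      have i9 : ii 9 = 126 := by decide
      have i10 : ii 10 = 252 := by decide
      have i11 : ii 11 = 462 := by decide
      have i12 : ii 12 = 924 := by decide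
      have i13 : ii 13 = 1716 := by decide
      have i14 : ii 14 = 3432 := by decide
      have i15 : ii 15 = 6435 := by decide
      have i16 : ii 16 = 12870 := by decide
      have i17 : ii 17 = 24310 := by decide
      have i18 : ii 18 = 48620 := by decide
      norm_num only at b0 b1 b2 b3 b4 b5 b6 b7 b8 b9 b10 b11 b12
      rcases n with _ | _ | _ | _ | _ | _ | n
      · norm_num only; omega
      · norm_num only; omega
      · norm_num only; omega
      · norm_num only; omega
      · norm_num only; omega
      · norm_num only; omega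
      · omega
    · obtain ⟨m, rfl⟩ : ∃ m, n = m + 6 := ⟨n - 6, by omega⟩
      have h0 := ih m (by omega)
      have h3 := ih (m + 3) (by omega)
      have h5 := ih (m + 5) (by omega)
      have hr := S_rec' (m + 13)
      have j1 := ii_succ_le (m + 13)
      have j2 := ii_succ_le (m + 13 + 1)
      have j3 := ii_succ_le (m + 13 + 2)
      have j4 := ii_succ_le (m + 13 + 3)
      have j5 := ii_succ_le (m + 13 + 4)
      have j6 := ii_succ_le (m + 13 + 5)
      rw [show m + 3 + 13 = m + 13 + 3 by ring] at h3
      rw [show m + 5 + 13 = m + 13 + 5 by ring] at h5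
      rw [show m + 6 + 13 = m + 13 + 6 by ring]
      norm_num only [add_assoc] at *
      omega

end Pool.Agent.H94.PAv
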