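import Pool.Agent.H94.PAv.NumH
import Pool.Agent.H94.PAv.NumI

set_option autoImplicit false

namespace Pool.Agent.H94.PAv

open Equiv Finset Filter Topology

theorem catalan_le (e : ℕ) : catalan e ≤ 4 ^ e := by
  have h1 := cat_cb e
  have h2 : e.centralBinom ≤ 2 ^ (2 * e) := by
    rw [Nat.centralBinom_eq_two_mul_choose]
    exact Nat.choose_le_two_pow (2 * e) e
  rw [pow_mul] at h2
  norm_num only at h2
  nlinarith [Nat.zero_le (e * catalan e)]

theorem catalan_le' (e m : ℕ) (h : 3 * e ≤ m) : (catalan e : ℝ) ≤ (8 / 5) ^ m := by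
  calc (catalan e : ℝ) ≤ 4 ^ e := by exact_mod_cast catalan_le e
    _ ≤ ((8 / 5) ^ 3) ^ e := by
      apply pow_le_pow_left₀ (by norm_num)
      norm_num
    _ = (8 / 5) ^ (3 * e) := by rw [pow_mul]
    _ ≤ (8 / 5) ^ m := pow_le_pow_right₀ (by norm_num) h

theorem bad_bound (n : ℕ) : ((Bad n).card : ℝ) ≤ 4 * (n : ℝ) ^ 2 * (8 / 5) ^ n := by
  induction n with
  | zero =>
    have : Bad 0 = ∅ := by
      rw [eq_empty_iff_forall_notMem]
      intro σ hσ
      rw [mem_Bad] at hσ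
      apply hσ.2.2.2.2
      rw [hσ.1 0 (by omega), hσ.1 0 (by omega), hσ.1 0 (by omega)]
    rw [this]; simp
  | succ n ih =>
    have h1 := bad_succ n
    have h2 : ((Bad (n + 1)).card : ℝ) ≤ (Bad n).card +
        4 * ∑ e ∈ (range (n + 1)).filter (fun e => 3 * e < n + 1), ((A e).card : ℝ) := by
      exact_mod_cast h1
    have h3 : ∑ e ∈ (range (n + 1)).filter (fun e => 3 * e < n + 1), ((A e).card : ℝ) ≤
        (n + 1) * (8 / 5) ^ n := by
      calc _ ≤ ∑ e ∈ (range (n + 1)).filter (fun e => 3 * e < n + 1), ((8 : ℝ) / 5) ^ n := by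
            apply sum_le_sum
            intro e he
            rw [mem_filter] at he
            rw [A_card]
            exact catalan_le' e n (by omega)
        _ ≤ ∑ e ∈ (range (n + 1)), ((8 : ℝ) / 5) ^ n := by
            apply sum_le_sum_of_subset_of_nonneg (filter_subset _ _)
            intro k _ _
            positivity
        _ = _ := by rw [sum_const, card_range, nsmul_eq_mul]; push_cast; ring
    have h4 : (0 : ℝ) < (8 / 5) ^ n := by positivity
    have h5 : ((8 : ℝ) / 5) ^ (n + 1) = (8 / 5) ^ n * (8 / 5) := pow_succ _ _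
    rw [h5]
    push_cast
    generalize ((8 : ℝ) / 5) ^ n = w at *
    have h6 : (0 : ℝ) ≤ (n : ℝ) := by positivity
    nlinarith [mul_nonneg h6 h4.le, mul_nonneg (mul_nonneg h6 h6) h4.le]

theorem ii_pos (n : ℕ) : 0 < ii n := Nat.choose_pos (Nat.div_le_self n 2)

theorem two_pow_le' (n : ℕ) : (2 : ℝ) ^ n / (n + 1) ≤ ii n := by
  rw [div_le_iff₀ (by positivity), mul_comm]
  exact_mod_cast two_pow_le n

/-- the error term -/
noncomputable def eps (n : ℕ) : ℝ :=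
  ((n : ℝ) + 1) * (39 / 40) ^ n + 4 * (n : ℝ) ^ 2 * ((n : ℝ) + 1) * (4 / 5) ^ n

theorem eps_tendsto : Tendsto eps atTop (𝓝 0) := by
  have h1 : ∀ (k : ℕ) (r : ℝ), 0 ≤ r → r < 1 →
      Tendsto (fun n : ℕ => (n : ℝ) ^ k * r ^ n) atTop (𝓝 0) := fun k r h0 h =>
    tendsto_pow_const_mul_const_pow_of_lt_one k h0 h
  have a1 := h1 1 (39 / 40) (by norm_num) (by norm_num)
  have a0 := h1 0 (39 / 40) (by norm_num) (by norm_num)
  have b3 := h1 3 (4 / 5) (by norm_num) (by norm_num)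
  have b2 := h1 2 (4 / 5) (by norm_num) (by norm_num)
  have := ((a1.add a0).add ((b3.add b2).const_mul 4))
  simp only [add_zero, mul_zero] at this
  refine this.congr ?_
  intro n
  unfold eps
  ring

theorem T_upper (n : ℕ) : ((T n).card : ℝ) ≤ ii n * (1 + eps n) := by
  have h1 := T_le n
  rw [I_card] at h1
  have h2 : ((T n).card : ℝ) ≤ ii n + (H n).card + (Bad n).card := by exact_mod_cast h1
  have h3 := H_bound n
  have h4 := bad_bound n
  have h5 := two_pow_le' n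
  have hn : (0 : ℝ) < (n : ℝ) + 1 := by positivity
  have h6 : (39 / 20 : ℝ) ^ n = (2 ^ n / ((n : ℝ) + 1)) * (((n : ℝ) + 1) * (39 / 40) ^ n) := by
    rw [show (39 / 20 : ℝ) = 2 * (39 / 40) by norm_num, mul_pow]
    field_simp
  have h7 : 4 * (n : ℝ) ^ 2 * (8 / 5 : ℝ) ^ n =
      (2 ^ n / ((n : ℝ) + 1)) * (4 * (n : ℝ) ^ 2 * ((n : ℝ) + 1) * (4 / 5) ^ n) := by
    rw [show (8 / 5 : ℝ) = 2 * (4 / 5) by norm_num, mul_pow]
    field_simp
  have h8 : 0 ≤ ((n : ℝ) + 1) * (39 / 40) ^ n := by positivity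
  have h9 : 0 ≤ 4 * (n : ℝ) ^ 2 * ((n : ℝ) + 1) * (4 / 5) ^ n := by positivity
  have h10 : (39 / 20 : ℝ) ^ n ≤ ii n * (((n : ℝ) + 1) * (39 / 40) ^ n) := by
    rw [h6]; exact mul_le_mul_of_nonneg_right h5 h8
  have h11 : 4 * (n : ℝ) ^ 2 * (8 / 5 : ℝ) ^ n ≤
      ii n * (4 * (n : ℝ) ^ 2 * ((n : ℝ) + 1) * (4 / 5) ^ n) := by
    rw [h7]; exact mul_le_mul_of_nonneg_right h5 h9
  unfold eps
  linarith [mul_add (ii n : ℝ) (((n : ℝ) + 1) * (39 / 40) ^ n)
    (4 * (n : ℝ) ^ 2 * ((n : ℝ) + 1) * (4 / 5) ^ n)]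

/-- `Ω_n^{1,2,3}` has asymptotically at most `0.95 |SAv_{n-1}|` elements -/
theorem T_le_S : ∀ᶠ n : ℕ in atTop, ((T n).card : ℝ) ≤ 19 / 20 * ((S (n - 1)).card : ℝ) := by
  have h1 : ∀ᶠ n in atTop, eps n < 1 / 25 :=
    eps_tendsto.eventually_lt_const (by norm_num)
  filter_upwards [h1, eventually_ge_atTop 14] with n hn hn14
  obtain ⟨m, rfl⟩ : ∃ m, n = m + 13 + 1 := ⟨n - 14, by omega⟩
  rw [Nat.add_sub_cancel]
  have h2 := T_upper (m + 13 + 1)
  have h3 : (11 : ℝ) * ii (m + 13) ≤ 5 * (S (m + 13)).card := by exact_mod_cast S_lower m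
  have h4 : (ii (m + 13 + 1) : ℝ) ≤ 2 * ii (m + 13) := by exact_mod_cast ii_succ_le (m + 13)
  have h5 : (0 : ℝ) ≤ ii (m + 13 + 1) := by positivity
  have h6 : (ii (m + 13 + 1) : ℝ) * (1 + eps (m + 13 + 1)) ≤ ii (m + 13 + 1) * (1 + 1 / 25) := by
    apply mul_le_mul_of_nonneg_left _ h5
    linarith
  linarith

end Pool.Agent.H94.PAv
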