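import Pool.Agent.H94.PAv.CountH

set_option autoImplicit false

namespace Pool.Agent.H94.PAv

open Equiv Finset

/-- partial sums of the Catalan series -/
theorem catalan_psum (y b : ℝ) (hy : 0 ≤ y) (hb : 0 ≤ b) (h : y + b ^ 2 ≤ b) (m : ℕ) :
    ∑ k ∈ range m, (catalan k : ℝ) * y ^ (k + 1) ≤ b := by
  induction m with
  | zero => simpa using hb
  | succ m ih =>
    rw [sum_range_succ']
    have hnn : 0 ≤ ∑ k ∈ range m, (catalan k : ℝ) * y ^ (k + 1) :=
      sum_nonneg (fun k _ => by positivity)
    have h1 : ∑ k ∈ range m, (catalan (k + 1) : ℝ) * y ^ (k + 1 + 1) ≤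
        (∑ k ∈ range m, (catalan k : ℝ) * y ^ (k + 1)) ^ 2 := by
      have e1 : ∀ k, (catalan (k + 1) : ℝ) * y ^ (k + 1 + 1) =
          ∑ i ∈ range (k + 1), ((catalan i : ℝ) * y ^ (i + 1)) *
            ((catalan (k - i) : ℝ) * y ^ (k - i + 1)) := by
        intro k
        rw [catalan_succ, ← Finset.sum_range (f := fun i => catalan i * catalan (k - i))]
        push_cast
        rw [sum_mul]
        apply sum_congr rfl
        intro i hi
        rw [mem_range] at hi
        have : k + 1 + 1 = (i + 1) + (k - i + 1) := by omega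
        rw [this, pow_add y (i + 1)]
        ring
      rw [sum_congr rfl (fun k _ => e1 k)]
      rw [sum_range_diag_flip m (fun i j => ((catalan i : ℝ) * y ^ (i + 1)) *
            ((catalan j : ℝ) * y ^ (j + 1)))]
      rw [sq, sum_mul_sum]
      apply sum_le_sum
      intro i _
      apply sum_le_sum_of_subset_of_nonneg
      · intro x hx; rw [mem_range] at hx ⊢; omega
      · intro x _ _; positivity
    have h2 : (∑ k ∈ range m, (catalan k : ℝ) * y ^ (k + 1)) ^ 2 ≤ b ^ 2 :=
      pow_le_pow_left₀ hnn ih 2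
    have h3 : (catalan 0 : ℝ) * y ^ (0 + 1) = y := by simp
    rw [h3]
    linarith

theorem sum_adm (n r : ℕ) :
    ∑ π ∈ H n, ((Adm n π).card + 1 - (r + 1)) = ∑ s ∈ Ico r (n + 1), M n (s + 1) := by
  classical
  have h1 : ∀ π ∈ H n, (Adm n π).card + 1 - (r + 1) =
      ∑ s ∈ Ico r (n + 1), if s + 1 ≤ (Adm n π).card then 1 else 0 := by
    intro π _
    have h2 := Adm_card_le n π
    have h3 : (Ico r (n + 1)).filter (fun s => s + 1 ≤ (Adm n π).card) =
        Ico r (Adm n π).card := by
      ext s; simp only [mem_filter, mem_Ico]; omega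
    rw [← card_filter, h3, Nat.card_Ico]
    omega
  rw [sum_congr rfl h1, sum_comm]
  apply sum_congr rfl
  intro s _
  rw [M, card_filter]

theorem M_bound (n : ℕ) : ∀ l, (M n (l + 1) : ℝ) ≤ (39 / 20) ^ n * (6 / 25) ^ l := by
  classical
  induction n using Nat.strong_induction_on with
  | _ n ih =>
    rcases n with _ | n
    · intro l
      rcases Nat.eq_zero_or_pos l with rfl | hl
      · rw [M_one]
        have : H 0 ⊆ {1} := by
          intro σ hσ
          rw [mem_H] at hσ
          rw [mem_singleton]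
          ext x
          simp [hσ.1 x (by omega)]
        have := card_le_card this
        rw [card_singleton] at this
        have h2 : ((H 0).card : ℝ) ≤ 1 := by exact_mod_cast this
        simpa using h2
      · have : M 0 (l + 1) = 0 := by
          unfold M
          rw [card_eq_zero, filter_eq_empty_iff]
          intro σ _
          have := Adm_card_le 0 σ
          omega
        rw [this]
        simp only [Nat.cast_zero]
        positivity
    · -- the inductive step
      set ρ : ℝ := 39 / 20 with hρ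
      set δ : ℝ := 6 / 25 with hδ
      have hρ0 : 0 < ρ := by rw [hρ]; norm_num
      have hδ0 : 0 < δ := by rw [hδ]; norm_num
      have key : ∀ r k, 3 * (k + 1) ≤ n + 1 → ((H1 (n + 1) k (r + 1 + 1)).card : ℝ) ≤
          (ρ ^ (n + 1) * (δ ^ r / (1 - δ))) * ((catalan k : ℝ) * (1 / ρ ^ 3) ^ (k + 1)) := by
        intro r k hk
        have h1 := H1_card (n + 1) k (r + 1) (by omega)
        rw [sum_adm, A_card] at h1
        have h2 : ((H1 (n + 1) k (r + 1 + 1)).card : ℝ) ≤
            (catalan k : ℝ) * ∑ s ∈ Ico r (n + 1 - 3 * (k + 1) + 1),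
              (M (n + 1 - 3 * (k + 1)) (s + 1) : ℝ) := by exact_mod_cast h1
        have h3 : ∑ s ∈ Ico r (n + 1 - 3 * (k + 1) + 1),
              (M (n + 1 - 3 * (k + 1)) (s + 1) : ℝ) ≤
              ρ ^ (n + 1 - 3 * (k + 1)) * (δ ^ r / (1 - δ)) := by
          calc _ ≤ ∑ s ∈ Ico r (n + 1 - 3 * (k + 1) + 1),
                ρ ^ (n + 1 - 3 * (k + 1)) * δ ^ s :=
                sum_le_sum (fun s _ => ih (n + 1 - 3 * (k + 1)) (by omega) s)
            _ = ρ ^ (n + 1 - 3 * (k + 1)) * ∑ s ∈ Ico r (n + 1 - 3 * (k + 1) + 1), δ ^ s := by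
                rw [mul_sum]
            _ ≤ _ := by
                apply mul_le_mul_of_nonneg_left _ (by positivity)
                exact geom_sum_Ico_le_of_lt_one hδ0.le (by rw [hδ]; norm_num)
        have h4 : ρ ^ (n + 1 - 3 * (k + 1)) = ρ ^ (n + 1) * (1 / ρ ^ 3) ^ (k + 1) := by
          have h5 : ρ ^ (n + 1) = ρ ^ (n + 1 - 3 * (k + 1)) * (ρ ^ 3) ^ (k + 1) := by
            rw [← pow_mul, ← pow_add]; congr 1; omega
          rw [h5, mul_assoc, ← mul_pow]
          have : ρ ^ 3 * (1 / ρ ^ 3) = 1 := by field_simp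
          rw [this, one_pow, mul_one]
        rw [h4] at h3
        have hc : (0 : ℝ) ≤ (catalan k : ℝ) := by positivity
        calc _ ≤ _ := h2
          _ ≤ (catalan k : ℝ) * (ρ ^ (n + 1) * (1 / ρ ^ 3) ^ (k + 1) * (δ ^ r / (1 - δ))) :=
            mul_le_mul_of_nonneg_left h3 hc
          _ = _ := by ring
      have key2 : ∀ r, (∑ k ∈ (range (n + 1)).filter (fun k => 3 * (k + 1) ≤ n + 1),
          ((H1 (n + 1) k (r + 1 + 1)).card : ℝ)) ≤
          (ρ ^ (n + 1) * (δ ^ r / (1 - δ))) * (9 / 50) := by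
        intro r
        have hnn : 0 ≤ ρ ^ (n + 1) * (δ ^ r / (1 - δ)) := by
          have : 0 < 1 - δ := by rw [hδ]; norm_num
          positivity
        calc _ ≤ ∑ k ∈ (range (n + 1)).filter (fun k => 3 * (k + 1) ≤ n + 1),
                (ρ ^ (n + 1) * (δ ^ r / (1 - δ))) * ((catalan k : ℝ) * (1 / ρ ^ 3) ^ (k + 1)) := by
              apply sum_le_sum
              intro k hk
              rw [mem_filter] at hk
              exact key r k hk.2
          _ ≤ ∑ k ∈ range (n + 1),
                (ρ ^ (n + 1) * (δ ^ r / (1 - δ))) * ((catalan k : ℝ) * (1 / ρ ^ 3) ^ (k + 1)) := by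
              apply sum_le_sum_of_subset_of_nonneg (filter_subset _ _)
              intro k _ _
              positivity
          _ = (ρ ^ (n + 1) * (δ ^ r / (1 - δ))) *
                ∑ k ∈ range (n + 1), (catalan k : ℝ) * (1 / ρ ^ 3) ^ (k + 1) := by
              rw [mul_sum]
          _ ≤ _ := by
              apply mul_le_mul_of_nonneg_left _ hnn
              apply catalan_psum _ _ (by positivity) (by norm_num)
              rw [hρ]; norm_num
      intro l
      rcases l with _ | r
      · rw [M_one]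
        have h1 := H_le n
        have h2 : ((H (n + 1)).card : ℝ) ≤ (H n).card +
            2 * ∑ k ∈ (range (n + 1)).filter (fun k => 3 * (k + 1) ≤ n + 1),
              ((H1 (n + 1) k (0 + 1 + 1)).card : ℝ) := by exact_mod_cast h1
        have h3 := key2 0
        have h4 := ih n (by omega) 0
        rw [M_one] at h4
        have h5 : ρ ^ (n + 1) = ρ ^ n * ρ := pow_succ _ _
        have h6 : 0 < ρ ^ n := by positivity
        rw [pow_zero] at h3 h4 ⊢
        rw [h5] at h3 ⊢
        have h7 : (ρ ^ n * ρ * (1 / (1 - δ))) * (9 / 50) = ρ ^ n * (ρ * (1 / (1 - δ)) * (9 / 50)) := by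
          ring
        rw [h7] at h3
        have h8 : 1 + 2 * (ρ * (1 / (1 - δ)) * (9 / 50)) ≤ ρ := by rw [hρ, hδ]; norm_num
        generalize ρ * (1 / (1 - δ)) * (9 / 50) = C at h3 h8
        have h9 : ρ ^ n * (1 + 2 * C) ≤ ρ ^ n * ρ := mul_le_mul_of_nonneg_left h8 h6.le
        have h10 : ρ ^ n * (1 + 2 * C) = ρ ^ n + 2 * (ρ ^ n * C) := by ring
        rw [mul_one] at h4 ⊢
        linarith
      · have h1 := M_le n (r + 1) (by omega)
        have h2 : (M (n + 1) (r + 1 + 1) : ℝ) ≤
            ∑ k ∈ (range (n + 1)).filter (fun k => 3 * (k + 1) ≤ n + 1),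
              ((H1 (n + 1) k (r + 1 + 1)).card : ℝ) := by exact_mod_cast h1
        have h3 := key2 r
        have h4 : (ρ ^ (n + 1) * (δ ^ r / (1 - δ))) * (9 / 50) ≤ ρ ^ (n + 1) * δ ^ (r + 1) := by
          have h5 : 0 < ρ ^ (n + 1) * δ ^ r := by positivity
          have h6 : (1 / (1 - δ)) * (9 / 50) ≤ δ := by rw [hδ]; norm_num
          calc _ = (ρ ^ (n + 1) * δ ^ r) * ((1 / (1 - δ)) * (9 / 50)) := by ring
            _ ≤ (ρ ^ (n + 1) * δ ^ r) * δ := mul_le_mul_of_nonneg_left h6 h5.le
            _ = _ := by rw [pow_succ]; ring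
        linarith

theorem H_bound (n : ℕ) : ((H n).card : ℝ) ≤ (39 / 20) ^ n := by
  have := M_bound n 0
  rw [M_one, pow_zero, mul_one] at this
  exact this

end Pool.Agent.H94.PAv
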