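import Pool.Agent.H94.PAv.Basic

set_option autoImplicit false

namespace Pool.Agent.H94.PAv

open Equiv Finset

theorem F1 {n k : ℕ} {σ : Perm ℕ} (hs : Sup n σ) (hA : Av σ) (hk : σ k + 1 = n)
    {x : ℕ} (hx : x < n) : x ≤ k ↔ n - 1 - k ≤ σ x := by
  have hkn : k < n := (hs.lt_iff k).mp (by omega)
  apply threshold hs (fun x => x ≤ k) _ _ _ x hx
  · intro x y hx hy hxk hyk
    rcases Nat.eq_or_lt_of_le hxk with rfl | hlt
    · have h1 := hs.lt hy
      have h2 : σ y ≠ σ x := fun h => hyk (by rw [σ.injective h])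
      omega
    · have h1 := hA x k y hlt (not_le.mp hyk)
      have h2 := hs.lt hy
      have h3 : σ y ≠ σ k := fun h => hyk (by rw [σ.injective h])
      have h4 : σ y ≠ σ x := fun h => hyk (by rw [σ.injective h]; exact hxk)
      by_contra hc
      exact h1 ⟨by omega, by omega⟩
  · have : (range n).filter (fun x => ¬ x ≤ k) = Ico (k+1) n := by
      ext x; simp; omega
    rw [this, Nat.card_Ico]
    omega

/-- The standing situation: `σ` and `σ²` avoid 132, `n-1 = σ k`, `k = σ j`, `2(k+1) ≤ n`. -/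
structure Sit (n k j : ℕ) (σ : Perm ℕ) : Prop where
  hs : Sup n σ
  hA : Av σ
  hB : Av (σ * σ : Perm ℕ)
  hk : σ k + 1 = n
  hj : σ j = k
  hkn : 2 * (k + 1) ≤ n

namespace Sit

variable {n k j : ℕ} {σ : Perm ℕ}

theorem f1 (h : Sit n k j σ) {x : ℕ} (hx : x < n) : x ≤ k ↔ n - 1 - k ≤ σ x :=
  F1 h.hs h.hA h.hk hx

theorem f2 (h : Sit n k j σ) {x : ℕ} (hx : x < n) : x ≤ j ↔ n - 1 - j ≤ σ (σ x) := by
  have := F1 (n := n) (k := j) (σ := σ * σ) (h.hs.mul h.hs) h.hB
    (by rw [Perm.mul_apply, h.hj, h.hk]) hx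
  simpa using this

theorem jn (h : Sit n k j σ) : j < n := (h.hs.lt_iff j).mp (by rw [h.hj]; have := h.hkn; omega)

theorem kj (h : Sit n k j σ) : k < j := by
  by_contra hc
  have := (h.f1 h.jn).mp (by omega)
  rw [h.hj] at this
  have := h.hkn
  omega

/-- positions of small values are before `j` -/
theorem small_pos (h : Sit n k j σ) {x : ℕ} (hx : x < n) (hv : σ x < k) : x < j := by
  have h1 := h.kj
  have h2 := h.hkn
  have h3 := h.jn
  have h4 : σ x < n := h.hs.lt hx
  have h5 := (h.f1 h4).mp (by omega)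
  have h6 := (h.f2 hx).mpr (by omega)
  rcases Nat.eq_or_lt_of_le h6 with rfl | h7
  · rw [h.hj] at hv; omega
  · exact h7

theorem f3 (h : Sit n k j σ) {x : ℕ} (hx : x < n) (hjx : j < x) : k < σ x := by
  have h1 : ¬ σ x < k := fun hv => by have := h.small_pos hx hv; omega
  have h2 : σ x ≠ k := fun hc => by
    rw [← h.hj] at hc
    have := σ.injective hc
    omega
  omega

theorem f3inc (h : Sit n k j σ) {x y : ℕ} (hjx : j < x) (hxy : x < y) (hy : y < n) :
    σ x < σ y := by
  have h1 := h.hA j x y hjx hxy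
  have h2 := h.f3 (by omega : x < n) hjx
  have h3 := h.f3 hy (by omega)
  rw [h.hj] at h1
  have h4 : σ y ≠ σ x := fun hc => by have := σ.injective hc; omega
  by_contra hc
  exact h1 ⟨h3, by omega⟩

/-- values `< k` occupy exactly positions `[j-k, j)` -/
theorem f4 (h : Sit n k j σ) (x : ℕ) : σ x < k ↔ j ≤ x + k ∧ x < j := by
  have hup : ∀ x y, σ x < k → x < y → y < j → σ y < k := by
    intro x y hx hxy hyj
    have h1 := h.hA x y j hxy hyj
    rw [h.hj] at h1
    have h2 : σ y ≠ k := fun hc => by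
      rw [← h.hj] at hc
      have := σ.injective hc
      omega
    by_contra hc
    exact h1 ⟨hx, by omega⟩
  have hjn := h.jn
  have hkj := h.kj
  have hkn := h.hkn
  -- the set of such positions
  have hcard : ((range j).filter (fun x => σ x < k)).card = k := by
    have : ((range j).filter (fun x => σ x < k)) = (range k).image (σ⁻¹ : Perm ℕ) := by
      ext x
      simp only [mem_filter, mem_range, mem_image]
      constructor
      · rintro ⟨_, h2⟩
        exact ⟨σ x, h2, by simp⟩
      · rintro ⟨v, hv, rfl⟩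
        have hlt : (σ⁻¹ : Perm ℕ) v < n := h.hs.inv.lt (by omega)
        refine ⟨h.small_pos hlt (by simpa using hv), by simpa using hv⟩
    rw [this, card_image_of_injective _ (σ⁻¹ : Perm ℕ).injective, card_range]
  constructor
  · intro hx
    have hxn : x < n := by
      by_contra hc
      have := h.hs x (by omega)
      omega
    have hxj := h.small_pos hxn hx
    refine ⟨?_, hxj⟩
    have h1 : (Ico x j).card ≤ ((range j).filter (fun x => σ x < k)).card := by
      apply card_le_card
      intro y hy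
      rw [mem_Ico] at hy
      rw [mem_filter, mem_range]
      refine ⟨hy.2, ?_⟩
      rcases Nat.eq_or_lt_of_le hy.1 with rfl | hlt
      · exact hx
      · exact hup x y hx hlt hy.2
    rw [hcard, Nat.card_Ico] at h1
    omega
  · rintro ⟨h1, h2⟩
    by_contra hc
    have h3 : ((range j).filter (fun x => σ x < k)).card ≤ (Ico (x+1) j).card := by
      apply card_le_card
      intro y hy
      rw [mem_filter, mem_range] at hy
      rw [mem_Ico]
      refine ⟨?_, hy.1⟩
      by_contra hyx
      rcases Nat.eq_or_lt_of_le (by omega : y ≤ x) with rfl | hlt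
      · exact hc hy.2
      · exact hc (hup y x hy.2 hlt h2)
    rw [hcard, Nat.card_Ico] at h3
    omega

/-- values `≤ k` occupy exactly positions `[j-k, j]` -/
theorem f4' (h : Sit n k j σ) (x : ℕ) : σ x ≤ k ↔ j ≤ x + k ∧ x ≤ j := by
  constructor
  · intro hx
    rcases Nat.eq_or_lt_of_le hx with h1 | h1
    · rw [← h.hj] at h1
      have := σ.injective h1
      omega
    · have := (h.f4 x).mp h1
      omega
  · rintro ⟨h1, h2⟩
    rcases Nat.eq_or_lt_of_le h2 with rfl | h3
    · rw [h.hj]
    · exact ((h.f4 x).mpr ⟨h1, h3⟩).le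

theorem f2' (h : Sit n k j σ) {x : ℕ} (hx : x < n) : j < x ↔ σ (σ x) < n - 1 - j := by
  have := h.f2 hx
  omega

end Sit

end Pool.Agent.H94.PAv
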